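import Pool.Agent.Y581.WN.StmS
import Pool.Agent.Y626.WG.Final
import Pool.Agent.W900.RB.Stage

/-! # The hierarchies are strict near every oracle -/

set_option autoImplicit false

namespace Pool.Agent.Y581.WN

open Filter hiding join
open Pool.Agent.NPC Pool.Agent.H620R2.Gauge Pool.Agent.TH678.GC Pool.Agent.Y626.WG
open Pool.Agent.W900.RB (Super Region)
open Pool.Agent.W900.CH (Close)

theorem pow_log_le {n : ℕ} (hn : 1 ≤ n) : 2 ^ (Nat.log 2 n + 1) ≤ 2 * n := by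
  rw [pow_succ, mul_comm]
  exact Nat.mul_le_mul_left 2 (Nat.pow_log_le_self 2 (by omega))

theorem hardn_isW (n k t c ν j : ℕ) : (hardn n k t c ν j).IsW (t + 1) := by
  refine ⟨⟨?_, ?_⟩, ?_⟩
  · show (List.range (2 ^ ν)).map (labn n c ν j) ≠ []
    intro h
    have h1 := congrArg List.length h
    rw [List.length_map, List.length_range, List.length_nil] at h1
    have : 0 < 2 ^ ν := by positivity
    omega
  · show (k :: List.replicate t 1).length ≤ t + 1
    rw [List.length_cons, List.length_replicate]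
  · intro s hs
    exact (List.eq_of_mem_replicate hs).le

theorem hardn_param (n k t c ν j : ℕ) : (hardn n k t c ν j).param = 2 * (k + t) + 1 := by
  show (k :: List.replicate t 1).sum +
    (([(0, List.range (k + t))] : List (ℕ × List ℕ)).map fun p => p.2.length + 1).sum = _
  rw [List.sum_cons, List.sum_replicate]
  simp
  ring

theorem cost_aux (u k N : ℕ) (h : 2 ^ u ≤ N) :
    2 ^ (u + 11) * 2 ^ (512 * u * k) ≤ 2048 * N ^ (1 + 512 * k) := by
  have e0 : (2 : ℕ) ^ (u + 11) = 2048 * 2 ^ u := by rw [pow_add]; ring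
  have e1 : (2 : ℕ) ^ (512 * u * k) = (2 ^ u) ^ (512 * k) := by rw [← pow_mul]; congr 1; ring
  rw [e0, e1, mul_assoc, pow_add, pow_one]
  gcongr

theorem size_aux (u n N c : ℕ) (h : 2 ^ u ≤ N) (h' : u ≤ N) :
    2 ^ (512 * u) * (4 * (n + 1 + (u + 11) + 512 * u) + 2) + c ≤
      N ^ 512 * (4 * (n + 12 + N + 512 * N) + 2) + c := by
  have e1 : (2 : ℕ) ^ (512 * u) = (2 ^ u) ^ 512 := by rw [← pow_mul]; congr 1; ring
  have e2 : 4 * (n + 1 + (u + 11) + 512 * u) + 2 ≤ 4 * (n + 12 + N + 512 * N) + 2 := by omega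
  rw [e1]
  exact Nat.add_le_add_right (Nat.mul_le_mul (Nat.pow_le_pow_left h 512) e2) c

/-- the bound for the number of the changes -/
noncomputable def cst1 (k : ℕ) : Polynomial ℕ :=
  Polynomial.C 2048 * (Polynomial.C 2 * Polynomial.X) ^ (1 + 512 * k)

/-- the bound for the size of the instances -/
noncomputable def cst2 (k t : ℕ) : Polynomial ℕ :=
  (Polynomial.C 2 * Polynomial.X) ^ 512 * (Polynomial.C 4 * (Polynomial.X + Polynomial.C 12 +
    Polynomial.C 2 * Polynomial.X + Polynomial.C 512 * (Polynomial.C 2 * Polynomial.X)) +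
    Polynomial.C 2) + Polynomial.C (cst k t)

theorem eval_cst1 (k n : ℕ) : (cst1 k).eval n = 2048 * (2 * n) ^ (1 + 512 * k) := by
  unfold cst1
  rw [Polynomial.eval_mul, Polynomial.eval_pow, Polynomial.eval_mul, Polynomial.eval_C,
    Polynomial.eval_C, Polynomial.eval_X]

theorem eval_cst2 (k t n : ℕ) : (cst2 k t).eval n =
    (2 * n) ^ 512 * (4 * (n + 12 + 2 * n + 512 * (2 * n)) + 2) + cst k t := by
  unfold cst2
  simp only [Polynomial.eval_mul, Polynomial.eval_pow, Polynomial.eval_C, Polynomial.eval_X,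
    Polynomial.eval_add]

theorem one_step (hb : S_blk) (ho : S_onea) (hl : S_loc) (hs : S_siz) (t : ℕ) (M : Alg)
    (σ : List Bool) (G : ℕ) : ∃ cost b : Polynomial ℕ, ∀ᶠ n : ℕ in atTop, ∀ B : Oracle,
      ∃ B' : Oracle, (∀ y ∉ Region n, B' y = B y) ∧ {y | B y ≠ B' y}.Finite ∧
      {y | B y ≠ B' y}.ncard ≤ cost.eval n ∧
      ∀ B'' : Oracle, (∀ y : List Bool, y.length ≤ b.eval n → B'' y = B' y) →
        ∃ x : Inst, x.IsW (t + 1) ∧ x.param = 2 * (kk M + t) + 1 ∧ Badn t M σ G x B'' := by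
  obtain ⟨b, hb'⟩ := hl t M σ G (cst2 (kk M) t)
  refine ⟨cst1 (kk M + t), b, ?_⟩
  filter_upwards [ho t M σ G, eventually_ge_atTop 1] with n hn h1 B
  obtain ⟨B', h2, j, h3⟩ := hn _ rfl B
  set u := Nat.log 2 n + 1 with hu
  have hk1 : 1 ≤ kk M := by unfold Pool.Agent.Y626.WG.kk; omega
  have hu1 : 2 ^ u ≤ 2 * n := pow_log_le h1
  have hu2 : u ≤ 2 * n := (Nat.lt_two_pow_self (n := u)).le.trans hu1
  obtain ⟨h4, h5, h6, _⟩ := hb n (kk M) t (u + 11) (512 * u) hk1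
  have h7 : {y | B y ≠ B' y} ⊆ Blk n (kk M) t (u + 11) (512 * u) := by
    intro y hy
    by_contra hc
    exact hy (h2 y hc).symm
  refine ⟨B', fun y hy => h2 y fun hc => hy (h6 hc), h4.subset h7, ?_, fun B'' hB'' =>
    ⟨hardn n (kk M) t (u + 11) (512 * u) j, ?_, ?_, ?_⟩⟩
  · rw [eval_cst1]
    exact (Set.ncard_le_ncard h7 h4).trans (h5.trans (cost_aux _ _ _ hu1))
  · exact hardn_isW _ _ _ _ _ _
  · exact hardn_param _ _ _ _ _ _
  · refine hb' n _ B' B'' ?_ hB'' h3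
    rw [bits_length, eval_cst2]
    exact (hs n (kk M) t (u + 11) (512 * u) j).trans (size_aux _ _ _ _ hu1 hu2)

/-- the enumeration of the requirements -/
theorem exists_enum : ∃ e : ℕ → ℕ × Alg × List Bool × ℕ, Function.Surjective e := by
  have hcn := CC.poly_countable
  have hc2 : Countable Alg := Alg.countable
  obtain ⟨M, _⟩ := IsFP.of_poly (A := fun _ => false) (F := fun y : List Bool => y) NPC.Poly.id
  have : Nonempty (ℕ × Alg × List Bool × ℕ) := ⟨(0, M, [], 0)⟩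
  exact exists_surjective_nat _

theorem strict (hb : S_blk) (ho : S_onea) (hl : S_loc) (hs : S_siz) {g : ℕ → ℝ} (hg : Super g)
    (O : Oracle) : ∃ A : Oracle, Close g O A ∧ ∀ t : ℕ,
      (∀ (α : Type) [TEnc α] (κ : α → ℕ) (P : α → Prop), InW t A κ P →
        InW (t + 1) A κ P ∧ InA t A κ P) ∧
      InW (t + 1) A (fun I : WInst (t + 1) => I.1.param) (fun I => I.1.Sat A) ∧
      ¬ InA t A (fun I : WInst (t + 1) => I.1.param) (fun I => I.1.Sat A) := by
  obtain ⟨e, he⟩ := exists_enum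
  choose cost b hcb using fun k => one_step hb ho hl hs (e k).1 (e k).2.1 (e k).2.2.1 (e k).2.2.2
  obtain ⟨A, n, _, _, hA, _, hW⟩ := Pool.Agent.W900.RB.stages hg O
    (fun k _ A => ∃ x : Inst, x.IsW ((e k).1 + 1) ∧ x.param = 2 * (kk (e k).2.1 + (e k).1) + 1 ∧
      Badn (e k).1 (e k).2.1 (e k).2.2.1 (e k).2.2.2 x A) cost b 0 (fun k => hcb k)
  refine ⟨A, hA, fun t => ⟨fun α _ κ P h => ⟨inW_mono h, inW_inA h⟩, mc_inW _ _, ?_⟩⟩
  rintro ⟨π, g', R, M, h⟩
  obtain ⟨k, hk⟩ := he (t, M, π (2 * (kk M + t) + 1), g' (2 * (kk M + t) + 1))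
  obtain ⟨x, hx1, hx2, hbad⟩ := hW k
  rw [hk] at hx1 hx2 hbad
  dsimp only at hx1 hx2 hbad
  have h1 := h ⟨x, hx1⟩
  dsimp only at h1
  rw [hx2] at h1
  exact hbad ⟨R ⟨x, hx1⟩, h1.1, h1.2.1, h1.2.2.1, h1.2.2.2⟩

end Pool.Agent.Y581.WN
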