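import Pool.Agent.Y581.WN.StmB
import Pool.Agent.Y581.WN.AsmS

/-! # Few changes are enough from the second level on -/

set_option autoImplicit false

namespace Pool.Agent.Y581.WN

open Filter hiding join
open Pool.Agent.NPC Pool.Agent.H620R2.Gauge Pool.Agent.TH678.GC Pool.Agent.Y626.WG
open Pool.Agent.W900.RB (Region region_len dist_triangle)
open Pool.Agent.W900.CH (Close)
open Pool.Agent.W900

/-- Stages: infinitely many tasks are carried out by few changes (a copy of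
`Pool.Agent.W900.RB.stages` with general costs). -/
theorem stagesG {g : ℕ → ℝ} (O : Oracle) (W : ℕ → ℕ → Oracle → Prop)
    (cost : ℕ → ℕ → ℕ) (b : ℕ → Polynomial ℕ) (N₀ : ℕ)
    (hg : ∀ k T : ℕ, ∃ᶠ n : ℕ in atTop, ∀ m ≥ n, ((T + cost k n : ℕ) : ℝ) ≤ g m)
    (hW : ∀ k, ∀ᶠ n : ℕ in atTop, ∀ B : Oracle, ∃ B' : Oracle, (∀ y ∉ Region n, B' y = B y) ∧
      {y | B y ≠ B' y}.Finite ∧ {y | B y ≠ B' y}.ncard ≤ cost k n ∧
      ∀ B'' : Oracle, (∀ y : List Bool, y.length ≤ (b k).eval n → B'' y = B' y) → W k n B'') :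
    ∃ (A : Oracle) (n : ℕ → ℕ), StrictMono n ∧ (∀ k, N₀ ≤ n k) ∧ Close g O A ∧
      (∀ y, (∀ k, y ∉ Region (n k)) → A y = O y) ∧ ∀ k, W k (n k) A := by
  have hstep : ∀ (k : ℕ) (B : Oracle) (N T : ℕ), ∃ (n : ℕ) (B' : Oracle), N ≤ n ∧
      (∀ y ∉ Region n, B' y = B y) ∧ {y | B y ≠ B' y}.Finite ∧
      {y | B y ≠ B' y}.ncard ≤ cost k n ∧
      (∀ B'' : Oracle, (∀ y : List Bool, y.length ≤ (b k).eval n → B'' y = B' y) → W k n B'') ∧
      ∀ m ≥ n, ((T + cost k n : ℕ) : ℝ) ≤ g m := by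
    intro k B N T
    obtain ⟨n, h2, h4, h5⟩ := ((hg k T).and_eventually
      ((hW k).and (eventually_ge_atTop N))).exists
    obtain ⟨B', h6, h7, h8, h9⟩ := h4 B
    exact ⟨n, B', h5, h6, h7, h8, h9, h2⟩
  choose ns Bs h1 h2 h3 h4 h5 h6 using hstep
  -- the states: the oracle, the bound for the next number, the number of changes
  let F : ℕ → Oracle × ℕ × ℕ := fun k => Nat.rec (O, N₀, 0) (fun k s =>
    (Bs k s.1 s.2.1 s.2.2, max (ns k s.1 s.2.1 s.2.2 + 1) ((b k).eval (ns k s.1 s.2.1 s.2.2) + 1),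
      s.2.2 + cost k (ns k s.1 s.2.1 s.2.2))) k
  let n : ℕ → ℕ := fun k => ns k (F k).1 (F k).2.1 (F k).2.2
  have hF0 : F 0 = (O, N₀, 0) := rfl
  have hF1 : ∀ k, (F (k + 1)).1 = Bs k (F k).1 (F k).2.1 (F k).2.2 := fun k => rfl
  have hF2 : ∀ k, (F (k + 1)).2.1 = max (n k + 1) ((b k).eval (n k) + 1) := fun k => rfl
  have hF3 : ∀ k, (F (k + 1)).2.2 = (F k).2.2 + cost k (n k) := fun k => rfl
  have hnN : ∀ k, (F k).2.1 ≤ n k := fun k => h1 _ _ _ _
  have hlt : ∀ k, n k < n (k + 1) := by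
    intro k
    have := hnN (k + 1)
    rw [hF2] at this
    have := le_max_left (n k + 1) ((b k).eval (n k) + 1)
    omega
  have hmono : StrictMono n := strictMono_nat_of_lt_succ hlt
  have hid : ∀ k, k ≤ n k := fun k => hmono.le_apply
  -- later oracles agree on short strings
  have hagree1 : ∀ (j : ℕ) (y : List Bool), y.length ≤ n j → (F (j + 1)).1 y = (F j).1 y := by
    intro j y hy
    rw [hF1]
    apply h2
    intro hr
    have := region_len hr
    change n j < y.length at this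
    omega
  have hagree : ∀ (j i : ℕ) (y : List Bool), y.length ≤ n j → (F (j + i)).1 y = (F j).1 y := by
    intro j i y hy
    induction i with
    | zero => rfl
    | succ i ih =>
      rw [← ih, ← add_assoc]
      apply hagree1
      exact hy.trans (hmono.monotone (Nat.le_add_right j i))
  set A : Oracle := fun y => (F y.length).1 y with hA
  have hAj : ∀ (j : ℕ) (y : List Bool), y.length ≤ n j → A y = (F j).1 y := by
    intro j y hy
    rw [hA]
    dsimp only
    rcases le_total y.length j with h | h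
    · obtain ⟨i, rfl⟩ := Nat.exists_eq_add_of_le h
      rw [hagree y.length i y (hid _)]
    · obtain ⟨i, hi⟩ := Nat.exists_eq_add_of_le h
      rw [hi, hagree j i y hy]
  have hdist : ∀ k m, CH.dist O (F k).1 m ≤ (F k).2.2 := by
    intro k m
    induction k with
    | zero =>
      have : CH.dist O (F 0).1 m = 0 := by
        unfold CH.dist
        rw [hF0]
        simp
      rw [this]
      exact Nat.zero_le _
    | succ k ih =>
      rw [hF3]
      refine (dist_triangle O (F k).1 (F (k + 1)).1 m (T := cost k (n k)) ?_ ?_).trans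
        (Nat.add_le_add_right ih _)
      · exact h3 k (F k).1 (F k).2.1 (F k).2.2
      · exact h4 k (F k).1 (F k).2.1 (F k).2.2
  refine ⟨A, n, hmono, ?_, ?_, ?_, ?_⟩
  · intro k
    have h7 : N₀ ≤ n 0 := hnN 0
    exact h7.trans (hmono.monotone (Nat.zero_le k))
  · -- few changes
    unfold Close
    filter_upwards [eventually_ge_atTop (n 0)] with m hm
    obtain ⟨k, hk1, hk2⟩ : ∃ k, n k ≤ m ∧ m < n (k + 1) := by
      have hex : ∃ j, m < n j := ⟨m + 1, lt_of_lt_of_le (Nat.lt_succ_self m) (hid _)⟩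
      have hpos : 0 < Nat.find hex := by
        rw [Nat.pos_iff_ne_zero]
        intro h
        have := Nat.find_spec hex
        rw [h] at this
        omega
      refine ⟨Nat.find hex - 1, ?_, ?_⟩
      · have := Nat.find_min hex (m := Nat.find hex - 1) (by omega)
        omega
      · have := Nat.find_spec hex
        rwa [Nat.sub_add_cancel hpos]
    have h7 : CH.dist O A m = CH.dist O (F (k + 1)).1 m := by
      unfold CH.dist
      congr 1
      ext y
      simp only [Set.mem_ofPred_eq]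
      constructor
      · rintro ⟨h8, h9⟩
        exact ⟨h8, by rw [← hAj (k + 1) y (by omega)]; exact h9⟩
      · rintro ⟨h8, h9⟩
        exact ⟨h8, by rw [hAj (k + 1) y (by omega)]; exact h9⟩
    rw [h7]
    refine le_trans ?_ (h6 k (F k).1 (F k).2.1 (F k).2.2 m hk1)
    exact_mod_cast hdist (k + 1) m
  · -- outside of the regions nothing is changed
    intro y hy
    have h7 : ∀ j, (F j).1 y = O y := by
      intro j
      induction j with
      | zero => rfl
      | succ j ih =>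
        rw [← ih, hF1]
        exact h2 _ _ _ _ y (hy j)
    exact h7 _
  · intro k
    apply h5 k (F k).1 (F k).2.1 (F k).2.2
    intro y hy
    have h7 : y.length ≤ n (k + 1) := by
      have h8 := hnN (k + 1)
      rw [hF2] at h8
      have h9 := le_max_right (n k + 1) ((b k).eval (n k) + 1)
      have h10 : y.length ≤ (b k).eval (n k) := hy
      omega
    rw [hAj (k + 1) y h7]


theorem superLog_cost {g : ℕ → ℝ} (hg : SuperLog g) (C T : ℕ) :
    ∃ᶠ n : ℕ in atTop, ∀ m ≥ n, ((T + Nat.log 2 n ^ C : ℕ) : ℝ) ≤ g m := by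
  have h1 : ∀ᶠ n : ℕ in atTop, T + 1 ≤ Nat.log 2 n := by
    filter_upwards [eventually_ge_atTop (2 ^ (T + 1))] with n hn
    exact Nat.le_log_of_pow_le (by norm_num) hn
  refine ((hg (C + 1)).and_eventually h1).mono ?_
  rintro n ⟨h2, h3⟩ m hm
  refine le_trans ?_ (h2 m hm).le
  have h4 : T + Nat.log 2 n ^ C ≤ Nat.log 2 n ^ (C + 1) := by
    have h5 : 1 ≤ Nat.log 2 n ^ C := Nat.one_le_pow _ _ (by omega)
    rw [pow_succ]
    calc T + Nat.log 2 n ^ C ≤ T * Nat.log 2 n ^ C + Nat.log 2 n ^ C :=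
          Nat.add_le_add_right (Nat.le_mul_of_pos_right _ h5) _
      _ = Nat.log 2 n ^ C * (T + 1) := by ring
      _ ≤ Nat.log 2 n ^ C * Nat.log 2 n := Nat.mul_le_mul_left _ h3
  exact_mod_cast h4

theorem one_stepk (ho : S_onek) (hl : S_loc) (t : ℕ) (ht : 1 ≤ t) (M : Alg)
    (σ : List Bool) (G : ℕ) : ∃ (C : ℕ) (b : Polynomial ℕ), ∀ᶠ n : ℕ in atTop, ∀ B : Oracle,
      ∃ B' : Oracle, (∀ y ∉ Region n, B' y = B y) ∧ {y | B y ≠ B' y}.Finite ∧
      {y | B y ≠ B' y}.ncard ≤ Nat.log 2 n ^ C ∧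
      ∀ B'' : Oracle, (∀ y : List Bool, y.length ≤ b.eval n → B'' y = B' y) →
        ∃ x : Inst, x.IsW (t + 1) ∧ x.param = 3 * kk M + 5 * t + 9 ∧ Badn t M σ G x B'' := by
  obtain ⟨C, a, h⟩ := ho t M σ G ht
  obtain ⟨b, hb⟩ := hl t M σ G a
  refine ⟨C, b, ?_⟩
  filter_upwards [h] with n hn B
  obtain ⟨B', h1, h2, h3, x, h4, h5, h6, h7⟩ := hn B
  exact ⟨B', h1, h2, h3, fun B'' hB => ⟨x, h4, h5, hb n x B' B'' h6 hB h7⟩⟩

theorem strictk (ho : S_onek) (hl : S_loc) {g : ℕ → ℝ} (hg : SuperLog g)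
    (O : Oracle) : ∃ A : Oracle, Close g O A ∧ ∀ t : ℕ, 1 ≤ t →
      (∀ (α : Type) [TEnc α] (κ : α → ℕ) (P : α → Prop), InW t A κ P →
        InW (t + 1) A κ P ∧ InA t A κ P) ∧
      InW (t + 1) A (fun I : WInst (t + 1) => I.1.param) (fun I => I.1.Sat A) ∧
      ¬ InA t A (fun I : WInst (t + 1) => I.1.param) (fun I => I.1.Sat A) := by
  obtain ⟨e, he⟩ := exists_enum
  choose C b hcb using fun k => one_stepk ho hl ((e k).1 + 1) (by omega) (e k).2.1 (e k).2.2.1
    (e k).2.2.2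
  obtain ⟨A, n, _, _, hA, _, hW⟩ := stagesG O
    (fun k _ A => ∃ x : Inst, x.IsW ((e k).1 + 1 + 1) ∧
      x.param = 3 * kk (e k).2.1 + 5 * ((e k).1 + 1) + 9 ∧
      Badn ((e k).1 + 1) (e k).2.1 (e k).2.2.1 (e k).2.2.2 x A)
    (fun k n => Nat.log 2 n ^ C k) b 0 (fun k T => superLog_cost hg (C k) T) (fun k => hcb k)
  refine ⟨A, hA, fun t ht => ⟨fun α _ κ P h => ⟨inW_mono h, inW_inA h⟩, mc_inW _ _, ?_⟩⟩
  rintro ⟨π, g', R, M, h⟩
  obtain ⟨k, hk⟩ := he (t - 1, M, π (3 * kk M + 5 * t + 9), g' (3 * kk M + 5 * t + 9))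
  obtain ⟨x, hx1, hx2, hbad⟩ := hW k
  rw [hk] at hx1 hx2 hbad
  dsimp only at hx1 hx2 hbad
  rw [Nat.sub_add_cancel ht] at hx1 hx2 hbad
  have h1 := h ⟨x, hx1⟩
  dsimp only at h1
  rw [hx2] at h1
  exact hbad ⟨R ⟨x, hx1⟩, h1.1, h1.2.1, h1.2.2.1, h1.2.2.2⟩

end Pool.Agent.Y581.WN
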