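import Pool.Agent.Y581.WN.StmC
import Pool.Agent.Y626.WC.Main
import Pool.Agent.TH680.DT.Subst
import Pool.Agent.W900.IE.Cls
import Pool.Agent.W900.RB.Stage

/-! # `W[1] = FPT` relative to all oracles near one oracle -/

set_option autoImplicit false

namespace Pool.Agent.Y581.WN

open Filter hiding join
open MeasureTheory Pool.Agent.NPC Pool.Agent.H620R2.Gauge
  Pool.Agent.Y626.WG Pool.Agent.Y626.WC
open Pool.Agent.TH678.GC (join)
open Pool.Agent.H628R3.RO (randomOracle prob)
open Pool.Agent.W900.RB (Super)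
open Pool.Agent.W900.CH (Close)

theorem poly_of_close {g : ℕ → ℝ} (hg : ¬ Super g) {O A : Oracle} (h : Close g O A) :
    ∃ p : Polynomial ℕ, ∀ n, Pool.Agent.W900.CH.dist O A n ≤ p.eval n := by
  obtain ⟨c, hc⟩ := Pool.Agent.W900.RB.pclose_of_not_super hg
  obtain ⟨n₁, hn⟩ := eventually_atTop.1 (hc O A h)
  refine ⟨Polynomial.X ^ c + Polynomial.C (Pool.Agent.W900.CH.dist O A n₁), fun n => ?_⟩
  simp only [Polynomial.eval_add, Polynomial.eval_pow, Polynomial.eval_X, Polynomial.eval_C]
  rcases le_total n₁ n with h1 | h1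
  · exact (hn n h1).trans (Nat.le_add_right _ _)
  · exact (Pool.Agent.W900.CH.dist_mono O A h1).trans (Nat.le_add_left _ _)

/-- one question -/
theorem isFP_ask (A : Oracle) : IsFP A (fun q => [A q]) := by
  obtain ⟨M, hM⟩ := IsFP.tt (A := A) (Q := fun q => [q])
    (H := fun p => [p.2.head?.getD false])
    (NPC.Poly.cons NPC.Poly.id (NPC.Poly.const []))
    (NPC.Poly.cons (NPC.Poly.head?_getD (NPC.Poly.snd NPC.Poly.id) false) (NPC.Poly.const []))
  exact ⟨M, fun q => hM q⟩

/-- a join is computed if both parts are (copied from `Pool.Agent.Y596.SC.Main`) -/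
theorem isFP_join' {X A B : Oracle} (hA : IsFP X (fun q => [A q])) (hB : IsFP X (fun q => [B q])) :
    IsFP X (fun q => [join A B q]) := by
  have h1 : IsFP X (fun q => [A q.tail]) := hA.precomp (NPC.Poly.tail NPC.Poly.id)
  have h2 : IsFP X (fun q => [B q.tail]) := hB.precomp (NPC.Poly.tail NPC.Poly.id)
  have h3 := (IsFP.of_poly (A := X) (F := fun q : List Bool => q) NPC.Poly.id).pair (h1.pair h2)
  have e1 : NPC.Poly (fun z : List Bool => (unpair z).1) := NPC.Poly.fst poly_unpair
  have e2 : NPC.Poly (fun z : List Bool => (unpair (unpair z).2).1.head?.getD false) :=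
    NPC.Poly.head?_getD (NPC.Poly.fst (poly_unpair.comp (NPC.Poly.snd poly_unpair))) false
  have e3 : NPC.Poly (fun z : List Bool => (unpair (unpair z).2).2.head?.getD false) :=
    NPC.Poly.head?_getD (NPC.Poly.snd (poly_unpair.comp (NPC.Poly.snd poly_unpair))) false
  have h4 := Pool.Agent.W900.IE.isFP_postcomp h3 (h := fun z : List Bool =>
      [if (unpair z).1.head? = some false then
      (unpair (unpair z).2).1.head?.getD false else if (unpair z).1.head? = some true then
      (unpair (unpair z).2).2.head?.getD false else false])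
    (NPC.Poly.cons (NPC.Poly.ite (NPC.Poly.decide_eq (NPC.Poly.head? e1) (NPC.Poly.const _)) e2
      (NPC.Poly.ite (NPC.Poly.decide_eq (NPC.Poly.head? e1) (NPC.Poly.const _)) e3
        (NPC.Poly.const false))) (NPC.Poly.const []))
  obtain ⟨M, hM⟩ := h4
  refine ⟨M, fun q => ?_⟩
  rw [hM q]
  simp only [unpair_pairBits]
  rcases q with _ | ⟨b, z⟩
  · rfl
  · cases b <;> simp [join]

theorem isFP_subst' {A K : Oracle} (hK : IsFP A (fun q => [K q])) {F : List Bool → List Bool}
    (h : IsFP (join A K) F) : IsFP A F := by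
  exact Pool.Agent.TH680.DT.isFP_subst (isFP_join' (isFP_ask A) hK) h

/-- The padded string. -/
def ypp (p : Polynomial ℕ) (r : List Bool) : List Bool :=
  pairBits (List.replicate (p.eval r.length) true) r

theorem ypp_len (p : Polynomial ℕ) (r : List Bool) : p.eval r.length ≤ (ypp p r).length := by
  unfold ypp
  rw [length_pairBits, List.length_replicate]
  omega

theorem unpair_ypp (p : Polynomial ℕ) (r : List Bool) : (unpair (ypp p r)).2 = r := by
  unfold ypp
  rw [unpair_pairBits]

theorem poly_ypp (p : Polynomial ℕ) {α : Type} [TEnc α] {r : α → List Bool} (hr : NPC.Poly r) :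
    NPC.Poly (fun a => ypp p (r a)) := by
  have h1 : UPoly (fun a => p.eval (r a).length) := (UPoly.length hr).eval p
  exact Pool.Agent.H622R2.poly_pairBits (poly_rep h1 true) hr

/-- The argument of the simulation. -/
def xpp (p : Polynomial ℕ) (z r : List Bool) : List Bool :=
  pairBits (List.replicate ((unpair (unpair z).1).1.length * (4 * (ypp p r).length + 2)) true)
    (ypp p r)

theorem poly_xpp (p : Polynomial ℕ) {α : Type} [TEnc α] {z r : α → List Bool}
    (hz : NPC.Poly z) (hr : NPC.Poly r) : NPC.Poly (fun a => xpp p (z a) (r a)) := by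
  have h1 : NPC.Poly (fun a => (unpair (unpair (z a)).1).1) :=
    (NPC.Poly.fst poly_unpair).comp ((NPC.Poly.fst poly_unpair).comp hz)
  have h2 : UPoly (fun a => (ypp p (r a)).length) := UPoly.length (poly_ypp p hr)
  have h3 : UPoly (fun a => (unpair (unpair (z a)).1).1.length * (4 * (ypp p (r a)).length + 2)) :=
    (UPoly.length h1).mul ((UPoly.mul (UPoly.const 4) h2).add (UPoly.const 2))
  exact Pool.Agent.H622R2.poly_pairBits (poly_rep h3 true) (poly_ypp p hr)

/-- the factor in the bound -/
def fb (w : ℕ) : ℕ := w * qq w ^ w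

theorem fb_mono : Monotone fb := by
  intro a b h
  unfold fb
  have h1 : qq a ≤ qq b := by
    unfold qq
    gcongr
    norm_num
  have h2 : 1 ≤ qq a := by unfold qq; omega
  calc a * qq a ^ a ≤ b * qq b ^ a := by gcongr
    _ ≤ b * qq b ^ b := Nat.mul_le_mul_left _ (Nat.pow_le_pow_right (h2.trans h1) h)

theorem bdn_le {w w' n : ℕ} (h : w ≤ w') : bdn w n ≤ fb w' * (4 * n + 2) :=
  Nat.mul_le_mul_right _ (fb_mono h)

theorem computable_fb : Computable fb := by
  have hp : Primrec₂ (fun a b : ℕ => a ^ b) := by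
    have := Primrec.nat_rec (α := ℕ) (β := ℕ) (f := fun _ => 1) (g := fun a p => a * p.2)
      (Primrec.const 1) ((Primrec.nat_mul.comp Primrec.fst (Primrec.snd.comp Primrec.snd)).to₂)
    refine this.of_eq fun a b => ?_
    induction b with
    | zero => simp
    | succ b ih =>
      rw [pow_succ]
      simp only at ih ⊢
      rw [ih]
      ring
  have h1 : Primrec (fun w : ℕ => 8 * w + 2) :=
    Primrec.nat_add.comp (Primrec.nat_mul.comp (Primrec.const 8) Primrec.id) (Primrec.const 2)
  have h2 : Primrec qq := Primrec.nat_add.comp (Primrec.const 1)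
    (Primrec.nat_mul.comp Primrec.id (hp.comp (Primrec.const 2) h1))
  exact (Primrec.nat_mul.comp Primrec.id (hp.comp h2 Primrec.id)).to_comp

theorem collapse (h1 : S_inst) (h2 : S_noise) (h3 : S_maj) : ∃ O : Oracle, ∀ g : ℕ → ℝ,
    ¬ Super g → ∀ A : Oracle, Close g O A → ∀ (α : Type) [TEnc α] (κ : α → ℕ) (P : α → Prop),
      InW 1 A κ P → InFPT A κ P := by
  classical
  choose T hlen hdep hT using h1
  set QQ : List Bool → List Bool → List Bool → Prop := fun y h v =>
    (v = [] ∧ (T y).fv h = true) ∨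
    (∃ t : ℕ, v = true :: t.bits ∧ t < ((T y).nx h).length) ∨
    (∃ t : ℕ, v = false :: t.bits ∧ ((T y).nx h).getD t false = true) with hQQ
  set K : Oracle := fun u => decide (∃ y h v : List Bool, u = ec y h v ∧ QQ y h v) with hK
  have hE : ∀ y h v, K (ec y h v) = true ↔ QQ y h v := by
    intro y h v
    rw [hK]
    simp only [decide_eq_true_eq]
    constructor
    · rintro ⟨y', h', v', h1, h2⟩
      obtain ⟨rfl, rfl, rfl⟩ := ec_inj h1
      exact h2
    · intro h1
      exact ⟨y, h, v, rfl, h1⟩
  choose Bad hBad hgood using fun y => hT y K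
  have hae1 : ∀ᵐ R ∂randomOracle, {y | R ∈ Bad y}.Finite := bc Bad hBad
  have hae2 : ∀ᵐ R ∂randomOracle, {x | R ∈ (fun x : List Bool =>
      {R : Oracle | x.length + 1 ≤ nno R (unpair x).1 x.length}) x}.Finite :=
    bc _ (fun x => h2 (unpair x).1 x.length)
  obtain ⟨R, hR1, hR2⟩ := (hae1.and hae2).exists
  refine ⟨OO K R, fun g hg A hA α _ κ P hQ => ?_⟩
  obtain ⟨p, hp⟩ := poly_of_close hg hA
  have hKA : IsFP A (fun q => [K q]) := h3 K R A p hR2 hp
  obtain ⟨π, g', Rr, M, hπ, hg', hR⟩ := hQ
  set Z : List Bool → List Bool → List Bool := fun y h => (T y).nx h with hZ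
  set FV : List Bool → List Bool → Bool := fun y h => (T y).fv h with hFV
  have k1 : ∀ (y h : List Bool) (t : ℕ), K (ec y h (true :: t.bits)) =
      decide (t < (Z y h).length) := by
    intro y h t
    rw [Bool.eq_iff_iff, hE, decide_eq_true_eq]
    simp only [hQQ, hZ]
    constructor
    · rintro (⟨h1, -⟩ | ⟨t', h1, h2⟩ | ⟨t', h1, -⟩)
      · exact absurd h1 (by simp)
      · rw [List.cons.injEq] at h1
        rw [bits_inj' h1.2]
        exact h2
      · exact absurd h1 (by simp)
    · intro h1
      exact Or.inr (Or.inl ⟨t, rfl, h1⟩)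
  have k2 : ∀ (y h : List Bool) (t : ℕ), K (ec y h (false :: t.bits)) =
      (Z y h).getD t false := by
    intro y h t
    rw [Bool.eq_iff_iff, hE]
    simp only [hQQ, hZ]
    constructor
    · rintro (⟨h1, -⟩ | ⟨t', h1, -⟩ | ⟨t', h1, h2⟩)
      · exact absurd h1 (by simp)
      · exact absurd h1 (by simp)
      · rw [List.cons.injEq] at h1
        rw [bits_inj' h1.2]
        exact h2
    · intro h1
      exact Or.inr (Or.inr ⟨t, rfl, h1⟩)
  have k3 : ∀ y h : List Bool, K (ec y h []) = FV y h := by
    intro y h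
    rw [Bool.eq_iff_iff, hE, hFV]
    simp only [hQQ]
    constructor
    · rintro (⟨-, h1⟩ | ⟨t', h1, -⟩ | ⟨t', h1, -⟩)
      · exact h1
      · exact absurd h1 (by simp)
      · exact absurd h1 (by simp)
    · intro h1
      exact Or.inl ⟨trivial, h1⟩
  have k4 : ∀ y h : List Bool, (Z y h).length ≤ y.length := fun y h => hlen y h
  have hsim := isFP_subst' hKA (isFP_sim (A := A) k1 k2 k3 k4)
  -- the reduction
  set q : Polynomial ℕ := Polynomial.X ^ 2 + p.comp (Polynomial.X ^ 2) with hq
  have hq1 : ∀ r : List Bool, r.length ^ 2 ≤ (ypp q r).length := by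
    intro r
    refine le_trans ?_ (ypp_len q r)
    rw [hq]
    simp
  have hq2 : ∀ r : List Bool, p.eval (r.length ^ 2) ≤ (ypp q r).length := by
    intro r
    refine le_trans ?_ (ypp_len q r)
    rw [hq]
    simp [Polynomial.eval_comp]
  set rr : List Bool → List Bool := fun z =>
    (M.out A (pairBits (unpair (unpair z).1).2 (unpair z).2)).getD [] with hrr
  have hrF : IsFP A rr := IsFP.comp (isFP_total A M) (IsFP.of_poly
    (Pool.Agent.H622R2.poly_pairBits
      ((NPC.Poly.snd poly_unpair).comp (NPC.Poly.fst poly_unpair)) (NPC.Poly.snd poly_unpair)))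
  have hG : IsFP A (fun z => xpp q z (rr z)) := by
    have h := IsFP.seq hrF hrF (φ := fun p => p.1) (ψ := fun p => xpp q p.1 p.2.1)
      (NPC.Poly.fst NPC.Poly.id) (poly_xpp q (NPC.Poly.fst NPC.Poly.id)
        (NPC.Poly.fst (NPC.Poly.snd NPC.Poly.id)))
    exact h
  set EE : Finset (List Bool) := hR1.toFinset with hEE
  set E' : Finset (List Bool) := EE.filter (fun y => ∃ I : Inst, (unpair y).2 = bits I ∧ I.Sat A)
    with hE'
  have hVF := IsFP.seq hG hsim (φ := fun p => p.2)
    (ψ := fun p => if (unpair p.2.1).2 ∈ EE.toList then [decide ((unpair p.2.1).2 ∈ E'.toList)]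
      else p.2.2) (NPC.Poly.snd NPC.Poly.id) (by
      have hu : NPC.Poly (fun p : List Bool × List Bool × List Bool => (unpair p.2.1).2) :=
        (NPC.Poly.snd poly_unpair).comp (NPC.Poly.fst (NPC.Poly.snd NPC.Poly.id))
      exact NPC.Poly.ite ((NPC.Poly.decide_mem hu (NPC.Poly.const EE.toList)).congr fun p => by
          congr)
        (NPC.Poly.cons ((NPC.Poly.decide_mem hu (NPC.Poly.const E'.toList)).congr fun p => by
          congr) (NPC.Poly.const []))
        (NPC.Poly.snd (NPC.Poly.snd NPC.Poly.id)))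
  simp only [Finset.mem_toList] at hVF
  obtain ⟨M', hM'⟩ := hVF
  refine ⟨fun k => pairBits (List.replicate (fb (g' k)) true) (π k), M',
    Pool.Agent.TH678.WP.computable_pairBits.comp
      (computable_replicate (computable_fb.comp hg')) hπ, fun a => ?_⟩
  obtain ⟨h5, h6, h7, h8⟩ := hR a
  set z := pairBits (pairBits (List.replicate (fb (g' (κ a))) true) (π (κ a))) (bits a) with hz
  have hrz : rr z = bits (Rr a) := by
    rw [hrr]
    dsimp only
    rw [hz, unpair_pairBits]
    dsimp only
    rw [unpair_pairBits]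
    dsimp only
    rw [h5]
    rfl
  have hz1 : (unpair (unpair z).1).1 = List.replicate (fb (g' (κ a))) true := by
    rw [hz, unpair_pairBits]
    dsimp only
    rw [unpair_pairBits]
  set y := ypp q (bits (Rr a)) with hy
  have hx : xpp q z (rr z) =
      pairBits (List.replicate (fb (g' (κ a)) * (4 * y.length + 2)) true) y := by
    rw [hrz]
    unfold xpp
    rw [hz1, List.length_replicate]
  have hy2 : (unpair y).2 = bits (Rr a) := unpair_ypp _ _
  rw [hM' z]
  beta_reduce
  rw [hx, unpair_pairBits]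
  dsimp only
  by_cases hyE : y ∈ EE
  · rw [if_pos hyE]
    refine ⟨_, rfl, ?_⟩
    rw [decide_eq_true_eq, h8, hE', Finset.mem_filter]
    constructor
    · intro h
      exact ⟨hyE, Rr a, hy2, h⟩
    · rintro ⟨-, I, h9, h10⟩
      rw [hy2] at h9
      rw [bits_injective h9]
      exact h10
  · rw [if_neg hyE]
    refine ⟨_, rfl, ?_⟩
    have hbad : R ∉ Bad y := fun h => hyE (hR1.mem_toFinset.2 h)
    have hys : (bits (Rr a)).length ^ 2 ≤ y.length := hq1 _
    have h9 := hdep y (Rr a) hy2 h6 hys
    have h10 := hgood y (Rr a) hy2 h6 hys R hbad A ((hp _).trans (hq2 _))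
    set L := (pairBits (List.replicate (fb (g' (κ a)) * (4 * y.length + 2)) true) y).length with hL
    have hdep' : (T y).depth ≤ (hist A Z y L).length := by
      rw [hist_length]
      refine h9.trans ((bdn_le h7).trans ?_)
      rw [hL, length_pairBits, List.length_replicate]
      omega
    have h11 := DT.fv_eq (A := A) _ (hist A Z y L) hdep' (fun n hn => hist_getElem A Z y L n hn)
    rw [h8, hFV]
    dsimp only
    rw [h11, h10]

end Pool.Agent.Y581.WN
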