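import Pool.Agent.Y581.WN.Mini

/-! # Strict hierarchies and `W[1]` outside of `M[1]`, near every oracle -/

set_option autoImplicit false

namespace Pool.Agent.Y581.WN

open Filter hiding join
open Pool.Agent.NPC Pool.Agent.H620R2.Gauge Pool.Agent.TH678.GC Pool.Agent.Y626.WG
open Pool.Agent.W900.RB (Super Region)
open Pool.Agent.W900.CH (Close)

/-- the requirements -/
abbrev Rq : Type := (ℕ × Alg × List Bool × ℕ) ⊕ (Alg × Alg × Polynomial ℕ × List Bool × ℕ × ℕ)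

/-- the requirement is satisfied -/
def Ok (A : Oracle) : Rq → Prop
  | Sum.inl (t, M, σ, G) => ∃ x : Inst, x.IsW (t + 1) ∧ x.param = 2 * (kk M + t) + 1 ∧
      Badn t M σ G x A
  | Sum.inr (M, N, p, σ, H, c) => ∃ x : Inst, x.IsW 1 ∧ x.param = 2 * (kk M + 0) + 1 ∧
      Badm M N p σ H c x A

theorem exists_enumr : ∃ e : ℕ → Rq, Function.Surjective e := by
  have hcn := CC.poly_countable
  have hc2 : Countable Alg := Alg.countable
  obtain ⟨M, _⟩ := IsFP.of_poly (A := fun _ => false) (F := fun y : List Bool => y) NPC.Poly.id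
  have : Nonempty Rq := ⟨Sum.inl (0, M, [], 0)⟩
  exact exists_surjective_nat _

theorem one_stepr (hb : S_blk) (ho : S_onea) (hl : S_loc) (hsel : S_sel) (hs : S_siz) (ω : Rq) :
    ∃ cost b : Polynomial ℕ, ∀ᶠ n : ℕ in atTop, ∀ B : Oracle,
      ∃ B' : Oracle, (∀ y ∉ Region n, B' y = B y) ∧ {y | B y ≠ B' y}.Finite ∧
      {y | B y ≠ B' y}.ncard ≤ cost.eval n ∧
      ∀ B'' : Oracle, (∀ y : List Bool, y.length ≤ b.eval n → B'' y = B' y) → Ok B'' ω := by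
  rcases ω with ⟨t, M, σ, G⟩ | ⟨M, N, p, σ, H, c⟩
  · exact one_step hb ho hl hs t M σ G
  · exact one_stepm hb hsel hs M N p σ H c

theorem both (hb : S_blk) (ho : S_onea) (hl : S_loc) (hsel : S_sel) (hs : S_siz) {g : ℕ → ℝ}
    (hg : Super g) (O : Oracle) : ∃ A : Oracle, Close g O A ∧
      (∀ t : ℕ, (∀ (α : Type) [TEnc α] (κ : α → ℕ) (P : α → Prop), InW t A κ P →
        InW (t + 1) A κ P ∧ InA t A κ P) ∧
      InW (t + 1) A (fun I : WInst (t + 1) => I.1.param) (fun I => I.1.Sat A) ∧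
      ¬ InA t A (fun I : WInst (t + 1) => I.1.param) (fun I => I.1.Sat A)) ∧
      ¬ InM1n A (fun I : WInst 1 => I.1.param) (fun I => I.1.Sat A) := by
  obtain ⟨e, he⟩ := exists_enumr
  choose cost b hcb using fun k => one_stepr hb ho hl hsel hs (e k)
  obtain ⟨A, n, _, _, hA, _, hW⟩ := Pool.Agent.W900.RB.stages hg O
    (fun k _ A => Ok A (e k)) cost b 0 (fun k => hcb k)
  refine ⟨A, hA, fun t => ⟨fun α _ κ P h => ⟨inW_mono h, inW_inA h⟩, mc_inW _ _, ?_⟩, ?_⟩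
  · rintro ⟨π, g', R, M, h⟩
    obtain ⟨k, hk⟩ := he (Sum.inl (t, M, π (2 * (kk M + t) + 1), g' (2 * (kk M + t) + 1)))
    have h0 := hW k
    rw [hk] at h0
    obtain ⟨x, hx1, hx2, hbad⟩ := h0
    have h1 := h ⟨x, hx1⟩
    dsimp only at h1
    rw [hx2] at h1
    exact hbad ⟨R ⟨x, hx1⟩, h1.1, h1.2.1, h1.2.2.1, h1.2.2.2⟩
  · rintro ⟨π, h, c, M, r, L, ⟨V, p, ⟨N, hN⟩, hL⟩, hr⟩
    obtain ⟨k, hk⟩ := he (Sum.inr (M, N, p, π (2 * (kk M + 0) + 1), h (2 * (kk M + 0) + 1), c))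
    have h0 := hW k
    rw [hk] at h0
    obtain ⟨x, hx1, hx2, hbad⟩ := h0
    have h1 := hr ⟨x, hx1⟩
    dsimp only at h1
    rw [hx2] at h1
    refine hbad ⟨r ⟨x, hx1⟩, h1.1, h1.2.1, ?_⟩
    rw [h1.2.2, hL]
    refine exists_congr fun w => and_congr_right fun _ => ?_
    rw [hN, Option.some.injEq]

end Pool.Agent.Y581.WN
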