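import Pool.Agent.Y581.WN.AsmS
import Pool.Agent.Y581.WN.AsmB
import Pool.Agent.Y581.WN.Both
import Pool.Agent.Y620.WN.SAT
import Pool.Agent.Y15.WN.MAT
import Pool.Agent.Y813.WN.Num
import Pool.Agent.Y356.WN.One
import Pool.Agent.Y953.WN.Loc
import Pool.Agent.Y953.WN.Hidk
import Pool.Agent.Y813.WN.Numk
import Pool.Agent.Y664.WN.ONEK
import Pool.Agent.Y448.WN.Satk
import Pool.Agent.Y658.WN.Chk
import Pool.Agent.Y907.WN.MATK
import Pool.Agent.Y77.WN.WK

/-! # The hierarchies near every oracle: the final theorems without hypotheses -/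

set_option autoImplicit false

namespace Pool.Agent.Y581.WN

open Pool.Agent.NPC Pool.Agent.H620R2.Gauge Pool.Agent.TH678.GC Pool.Agent.Y626.WG
open Pool.Agent.W900.RB (Super)
open Pool.Agent.W900.CH (Close)

theorem t_onea : S_onea :=
  Pool.Agent.Y356.WN.t_onea Pool.Agent.Y620.WN.t_sat Pool.Agent.Y15.WN.t_mat
    Pool.Agent.Y15.WN.t_sel Pool.Agent.Y15.WN.t_siz Pool.Agent.Y813.WN.t_num

theorem t_onek : S_onek :=
  Pool.Agent.Y664.WN.t_onek (Pool.Agent.Y953.WN.t_hidk Pool.Agent.Y448.WN.t_satk)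
    Pool.Agent.Y658.WN.t_chk Pool.Agent.Y907.WN.t_matk Pool.Agent.Y907.WN.t_selk
    Pool.Agent.Y907.WN.t_key Pool.Agent.Y77.WN.t_wk Pool.Agent.Y813.WN.t_numk
    Pool.Agent.Y813.WN.t_cost

/-- Superpolynomially many changes are enough for all levels. -/
theorem strictF {g : ℕ → ℝ} (hg : Super g) (O : Oracle) : ∃ A : Oracle, Close g O A ∧ ∀ t : ℕ,
      (∀ (α : Type) [TEnc α] (κ : α → ℕ) (P : α → Prop), InW t A κ P →
        InW (t + 1) A κ P ∧ InA t A κ P) ∧
      InW (t + 1) A (fun I : WInst (t + 1) => I.1.param) (fun I => I.1.Sat A) ∧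
      ¬ InA t A (fun I : WInst (t + 1) => I.1.param) (fun I => I.1.Sat A) :=
  strict Pool.Agent.Y620.WN.t_blk t_onea Pool.Agent.Y953.WN.t_loc Pool.Agent.Y15.WN.t_siz hg O

/-- Superpolynomially many changes are enough for all levels and for `M[1]`. -/
theorem bothF {g : ℕ → ℝ} (hg : Super g) (O : Oracle) : ∃ A : Oracle, Close g O A ∧
      (∀ t : ℕ, (∀ (α : Type) [TEnc α] (κ : α → ℕ) (P : α → Prop), InW t A κ P →
        InW (t + 1) A κ P ∧ InA t A κ P) ∧
      InW (t + 1) A (fun I : WInst (t + 1) => I.1.param) (fun I => I.1.Sat A) ∧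
      ¬ InA t A (fun I : WInst (t + 1) => I.1.param) (fun I => I.1.Sat A)) ∧
      ¬ InM1n A (fun I : WInst 1 => I.1.param) (fun I => I.1.Sat A) :=
  both Pool.Agent.Y620.WN.t_blk t_onea Pool.Agent.Y953.WN.t_loc Pool.Agent.Y15.WN.t_sel
    Pool.Agent.Y15.WN.t_siz hg O

/-- From the first level on, superpolylogarithmically many changes are enough. -/
theorem strictkF {g : ℕ → ℝ} (hg : SuperLog g) (O : Oracle) : ∃ A : Oracle, Close g O A ∧
      ∀ t : ℕ, 1 ≤ t →
      (∀ (α : Type) [TEnc α] (κ : α → ℕ) (P : α → Prop), InW t A κ P →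
        InW (t + 1) A κ P ∧ InA t A κ P) ∧
      InW (t + 1) A (fun I : WInst (t + 1) => I.1.param) (fun I => I.1.Sat A) ∧
      ¬ InA t A (fun I : WInst (t + 1) => I.1.param) (fun I => I.1.Sat A) :=
  strictk t_onek Pool.Agent.Y953.WN.t_loc hg O

end Pool.Agent.Y581.WN

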