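import Pool.Agent.Y581.WN.AsmS
import Pool.Agent.Y626.WX.Defs
import Pool.Agent.Y626.WC.Core

/-! # `W[1]` and `M[1]` near every oracle -/

set_option autoImplicit false

namespace Pool.Agent.Y581.WN

open Filter hiding join
open Pool.Agent.NPC Pool.Agent.H620R2.Gauge Pool.Agent.TH678.GC Pool.Agent.Y626.WG
open Pool.Agent.Y626.WC (sat_one)
open Pool.Agent.TH678.RS (ev_poly)
open Pool.Agent.W900.RB (Super Region region_len)
open Pool.Agent.W900.CH (Close)

/-- The class `M[1]` in a wide nonuniform form, relative to the oracle `A`: as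
`Pool.Agent.Y626.WX.InM1`, but the functions `π` and `h` of the parameter are arbitrary. -/
def InM1n (A : Oracle) {α : Type} [TEnc α] (κ : α → ℕ) (P : α → Prop) : Prop :=
  ∃ (π : ℕ → List Bool) (h : ℕ → ℕ) (c : ℕ) (M : Alg) (r : α → List Bool) (L : Set (List Bool)),
    IsNP A L ∧ ∀ a, M.out A (pairBits (π (κ a)) (bits a)) = some (r a) ∧
      (r a).length ≤ (h (κ a) * (Nat.log 2 (bits a).length + 1)) ^ c ∧ (P a ↔ r a ∈ L)

/-- The algorithms are not correct for the instance `x`. -/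
def Badm (M N : Alg) (p : Polynomial ℕ) (σ : List Bool) (H c : ℕ) (x : Inst) (A : Oracle) :
    Prop :=
  ¬ ∃ r : List Bool, M.out A (pairBits σ (bits x)) = some r ∧
    r.length ≤ (H * (Nat.log 2 (bits x).length + 1)) ^ c ∧
    (x.Sat A ↔ ∃ w : List Bool, w.length ≤ p.eval r.length ∧ N.out A (pairBits w r) = some [true])

theorem length_labn (n c ν j i : ℕ) : (labn n c ν j i).length = n + 1 + c + ν := by
  unfold labn
  rw [List.length_append, List.length_cons, List.length_append, List.length_replicate,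
    length_bitsOf, length_bitsOf]
  ring

/-- the truth of the instances without universal quantifiers -/
theorem sat_hard0 (A : Oracle) (n k ν : ℕ) : (hardn n k 0 0 ν 0).Sat A ↔
    ∃ v, Tup (2 ^ ν) (k + 0) v ∧ A (v.flatMap (labn n 0 ν 0)) = true := by
  have e1 : (hardn n k 0 0 ν 0).blocks.sum = k + 0 := by
    show (k :: List.replicate 0 1).sum = k + 0
    simp
  have e2 : (hardn n k 0 0 ν 0).labels.length = 2 ^ ν := by
    show ((List.range (2 ^ ν)).map (labn n 0 ν 0)).length = _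
    rw [List.length_map, List.length_range]
  rw [sat_one (hardn_isW n k 0 0 ν 0), e1, e2]
  refine exists_congr fun v => and_congr_right fun hv => ?_
  have e3 : (hardn n k 0 0 ν 0).atom A v (0, List.range (k + 0)) =
      A (v.flatMap (labn n 0 ν 0)) := by
    show A ((List.range (k + 0)).flatMap
      (fun i => (hardn n k 0 0 ν 0).labels.getD (v.getD i 0) [])) = _
    have h0 : k + 0 = v.length := hv.1.symm
    rw [h0, flat_getD v (fun a => (hardn n k 0 0 ν 0).labels.getD a [])]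
    congr 1
    refine flatMap_congr' fun a ha => ?_
    have ha' : a < 2 ^ ν := hv.2 a ha
    show ((List.range (2 ^ ν)).map (labn n 0 ν 0)).getD a [] = _
    rw [List.getD_eq_getElem _ _ (by simpa using ha')]
    simp
  show [(hardn n k 0 0 ν 0).atom A v (0, List.range (k + 0))] ∈ [[true]] ↔ _
  rw [e3]
  simp

theorem eval_mono' (p : Polynomial ℕ) {a b : ℕ} (h : a ≤ b) : p.eval a ≤ p.eval b := by
  rw [Polynomial.eval_eq_sum_range, Polynomial.eval_eq_sum_range]
  exact Finset.sum_le_sum fun i _ => Nat.mul_le_mul_left _ (Nat.pow_le_pow_left h i)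

/-- a polynomial in the logarithm is small -/
theorem log_small (F : Polynomial ℕ) : ∀ᶠ n : ℕ in atTop, F.eval (Nat.log 2 n + 1) ≤ n := by
  obtain ⟨d, _, hd⟩ := Pool.Agent.H622R2.Exp.YAux.poly_bound F
  have h1 := ev_poly (3 ^ d) d
  have h2 : Tendsto (fun n : ℕ => Nat.log 2 n) atTop atTop := by
    refine tendsto_atTop.2 fun b => ?_
    filter_upwards [eventually_ge_atTop (2 ^ b)] with n hn
    exact Nat.le_log_of_pow_le (by norm_num) hn
  filter_upwards [h2.eventually h1, eventually_ge_atTop 1] with n hn h3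
  have h4 : (Nat.log 2 n + 1 + 2) ^ d ≤ 3 ^ d * (Nat.log 2 n + 1) ^ d := by
    rw [← mul_pow]
    exact Nat.pow_le_pow_left (by omega) _
  exact (hd _).trans (h4.trans (hn.le.trans (Nat.pow_log_le_self 2 (by omega))))

/-- one error, by changes in the block -/
theorem core_m (hb : S_blk) (hsel : S_sel) (M N : Alg) (p : Polynomial ℕ)
    (σ : List Bool) (H c : ℕ) {n ν : ℕ} (hν : 1 ≤ ν)
    (hin : (pairBits σ (bits (hardn n (kk M) 0 0 ν 0))).length + 2 ≤ 2 ^ (2 * ν))
    (hshort : ∀ r w : List Bool,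
      r.length ≤ (H * (Nat.log 2 (bits (hardn n (kk M) 0 0 ν 0)).length + 1)) ^ c →
      w.length ≤ p.eval r.length → ∀ A : Oracle, ∃ Q : Finset (List Bool),
        (∀ q ∈ Q, q.length ≤ n) ∧ ∀ A' : Oracle, (∀ q ∈ Q, A' q = A q) →
          N.out A' (pairBits w r) = N.out A (pairBits w r)) (B : Oracle) :
    ∃ B' : Oracle, (∀ y ∉ Blk n (kk M) 0 0 ν, B' y = B y) ∧
      Badm M N p σ H c (hardn n (kk M) 0 0 ν 0) B' := by
  classical
  obtain ⟨qM, hqM⟩ := M.out_local
  set k := kk M with hk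
  have hk1 : 1 ≤ k := by rw [hk]; unfold Pool.Agent.Y626.WG.kk; omega
  set x := hardn n k 0 0 ν 0 with hx
  obtain ⟨h4, h5, h6, h7⟩ := hb n k 0 0 ν hk1
  set B0 : Oracle := basen B n k 0 0 ν with hB0
  have hB0' : ∀ y ∉ Blk n k 0 0 ν, B0 y = B y := fun y hy => if_neg hy
  have hsat0 : ¬ x.Sat B0 := by
    rw [hx, sat_hard0]
    rintro ⟨v, hv, h8⟩
    have h9 : v.flatMap (labn n 0 ν 0) ∈ Blk n k 0 0 ν := ⟨0, by norm_num, v, hv, rfl⟩
    have h10 : B0 (v.flatMap (labn n 0 ν 0)) = false := if_pos h9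
    rw [h10] at h8
    exact Bool.false_ne_true h8
  by_cases hbad : Badm M N p σ H c x B0
  · exact ⟨B0, hB0', hbad⟩
  unfold Badm at hbad
  rw [not_not] at hbad
  obtain ⟨r, hr1, hr2, hr3⟩ := hbad
  have hr4 : ¬ ∃ w : List Bool, w.length ≤ p.eval r.length ∧
      N.out B0 (pairBits w r) = some [true] := fun h => hsat0 (hr3.2 h)
  obtain ⟨Q, hQ1, _, hQ3⟩ := hqM B0 (pairBits σ (bits x))
  have hQc : Q.card + 2 ^ 0 ≤ 2 ^ (ν * k) := by
    have h8 : Q.card ≤ 2 ^ (2 * ν * pe M) := by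
      refine hQ1.trans ((pe_spec M _).trans ?_)
      rw [pow_mul]
      exact Nat.pow_le_pow_left hin _
    have h9 : (2 : ℕ) ^ (ν * k) = 2 ^ (2 * ν * pe M) * 2 ^ (3 * ν) := by
      rw [← pow_add, hk]
      unfold Pool.Agent.Y626.WG.kk
      congr 1
      ring
    have h10 : 2 ≤ (2 : ℕ) ^ (3 * ν) := by
      calc 2 = 2 ^ 1 := by norm_num
        _ ≤ _ := Nat.pow_le_pow_right (by norm_num) (by omega)
    have h11 : 1 ≤ (2 : ℕ) ^ (2 * ν * pe M) := Nat.one_le_two_pow
    rw [h9]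
    nlinarith
  obtain ⟨S, hS1, hS2⟩ := hsel n k 0 0 ν 0 hk1 Q hQc
  set v := S 0 with hv
  have hvt : Tup (2 ^ ν) (k + 0) v := hS1.tup 0 (by norm_num)
  set qv := v.flatMap (labn n 0 ν 0) with hqv
  have hqvQ : qv ∉ Q := by
    intro h
    refine hS2 qv h ⟨(0, 0, []), by norm_num, by norm_num, ⟨rfl, by simp⟩, ?_⟩
    rw [hqv]
    simp [hv]
  have hqvB : qv ∈ Blk n k 0 0 ν := ⟨0, by norm_num, v, hvt, rfl⟩
  set B' : Oracle := Function.update B0 qv true with hB'
  have hB'q : ∀ y, y ≠ qv → B' y = B0 y := fun y hy => Function.update_of_ne hy _ _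
  refine ⟨B', fun y hy => ?_, ?_⟩
  · rw [hB'q y (fun h => hy (h ▸ hqvB)), hB0' y hy]
  · rintro ⟨r', h9, h10, h11⟩
    have h12 : M.out B' (pairBits σ (bits x)) = M.out B0 (pairBits σ (bits x)) :=
      hQ3 B' fun q hq => hB'q q fun h => hqvQ (h ▸ hq)
    rw [h12, hr1, Option.some.injEq] at h9
    subst h9
    have h13 : x.Sat B' := by
      rw [hx, sat_hard0]
      refine ⟨v, hvt, ?_⟩
      show B' qv = true
      rw [hB']
      simp
    obtain ⟨w, h14, h15⟩ := h11.1 h13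
    refine hr4 ⟨w, h14, ?_⟩
    obtain ⟨Q', h16, h17⟩ := hshort r w hr2 h14 B'
    rw [← h15]
    refine h17 B0 fun q hq => (hB'q q ?_).symm
    rintro rfl
    have h18 := h16 _ hq
    have h19 := region_len (h6 hqvB)
    omega

/-- the error depends on strings of polynomial length -/
theorem loc_m (hb : S_blk) (M N : Alg) (p : Polynomial ℕ) (σ : List Bool) (H c : ℕ)
    (a d : Polynomial ℕ) : ∃ b : Polynomial ℕ, ∀ (n ν : ℕ),
      (bits (hardn n (kk M) 0 0 ν 0)).length ≤ a.eval n → ν ≤ d.eval n →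
      ∀ B' B'' : Oracle, (∀ y : List Bool, y.length ≤ b.eval n → B'' y = B' y) →
        Badm M N p σ H c (hardn n (kk M) 0 0 ν 0) B' →
        Badm M N p σ H c (hardn n (kk M) 0 0 ν 0) B'' := by
  classical
  obtain ⟨qM, hqM⟩ := M.out_local
  obtain ⟨qN, hqN⟩ := N.out_local
  set k := kk M with hk
  have hk1 : 1 ≤ k := by rw [hk]; unfold Pool.Agent.Y626.WG.kk; omega
  set ρ : Polynomial ℕ := (Polynomial.C H * (a + 1)) ^ c with hρ
  set bN : Polynomial ℕ := qN.comp (2 * p.comp ρ + 1 + ρ) with hbN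
  set bM : Polynomial ℕ := qM.comp (Polynomial.C (2 * σ.length + 1) + a) with hbM
  set bS : Polynomial ℕ := Polynomial.C (k + 0) * (Polynomial.X + 1 + d) with hbS
  refine ⟨bM + bN + bS, ?_⟩
  intro n ν hsa hνd B' B'' hag hbad
  rintro ⟨r, h8, h9, h10⟩
  set x := hardn n k 0 0 ν 0 with hx
  simp only [Polynomial.eval_add] at hag
  apply hbad
  have e1 : M.out B'' (pairBits σ (bits x)) = M.out B' (pairBits σ (bits x)) := by
    obtain ⟨Q, _, h11, h12⟩ := hqM B' (pairBits σ (bits x))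
    refine h12 B'' fun q hq => hag q ?_
    refine (h11 q hq).trans ?_
    have h13 : qM.eval (pairBits σ (bits x)).length ≤ bM.eval n := by
      rw [hbM, Polynomial.eval_comp]
      refine eval_mono' _ ?_
      rw [length_pairBits, Polynomial.eval_add, Polynomial.eval_C]
      omega
    omega
  have e2 : ∀ w : List Bool, w.length ≤ p.eval r.length →
      N.out B'' (pairBits w r) = N.out B' (pairBits w r) := by
    intro w hw
    obtain ⟨Q, _, h11, h12⟩ := hqN B' (pairBits w r)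
    refine h12 B'' fun q hq => hag q ?_
    refine (h11 q hq).trans ?_
    have h14 : r.length ≤ ρ.eval n := by
      refine h9.trans ?_
      rw [hρ, Polynomial.eval_pow, Polynomial.eval_mul, Polynomial.eval_C, Polynomial.eval_add,
        Polynomial.eval_one]
      refine Nat.pow_le_pow_left (Nat.mul_le_mul_left _ (Nat.add_le_add_right ?_ _)) _
      exact (Nat.log_le_self _ _).trans hsa
    have h13 : qN.eval (pairBits w r).length ≤ bN.eval n := by
      rw [hbN, Polynomial.eval_comp]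
      refine eval_mono' _ ?_
      have h15 := hw.trans (eval_mono' p h14)
      rw [length_pairBits]
      simp only [Polynomial.eval_add, Polynomial.eval_mul, Polynomial.eval_ofNat,
        Polynomial.eval_comp, Polynomial.eval_one]
      omega
    omega
  have e3 : x.Sat B'' ↔ x.Sat B' := by
    obtain ⟨h4, h5, h6, h7⟩ := hb n k 0 0 ν hk1
    rw [hx, sat_hard0, sat_hard0]
    refine exists_congr fun v => and_congr_right fun hv => ?_
    rw [hag]
    have h11 := h7 (v.flatMap (labn n 0 ν 0)) ⟨0, by norm_num, v, hv, rfl⟩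
    rw [h11]
    have h12 : (k + 0) * (n + 1 + 0 + ν) ≤ bS.eval n := by
      rw [hbS]
      simp only [Polynomial.eval_add, Polynomial.eval_mul, Polynomial.eval_C,
        Polynomial.eval_X, Polynomial.eval_one]
      refine Nat.mul_le_mul_left _ ?_
      omega
    omega
  refine ⟨r, e1 ▸ h8, h9, ?_⟩
  rw [← e3, h10]
  constructor
  · rintro ⟨w, h11, h12⟩
    exact ⟨w, h11, by rw [← e2 w h11]; exact h12⟩
  · rintro ⟨w, h11, h12⟩
    exact ⟨w, h11, by rw [e2 w h11]; exact h12⟩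

theorem tendsto_u : Tendsto (fun n : ℕ => Nat.log 2 n + 1) atTop atTop := by
  refine tendsto_atTop.2 fun b => ?_
  filter_upwards [eventually_ge_atTop (2 ^ b)] with n hn
  exact (Nat.le_log_of_pow_le (by norm_num) hn).trans (Nat.le_succ _)

theorem num_m (s C : ℕ) : ∀ᶠ n : ℕ in atTop, ∀ u N : ℕ, u = Nat.log 2 n + 1 → N = 2 ^ u →
    2 * s + 1 + (N ^ 512 * (4 * (n + 1 + 0 + 512 * u) + 2) + C) + 2 ≤ N ^ 1024 := by
  filter_upwards [tendsto_u.eventually (ev_poly (2 * s + C + 4 * 600 + 10) 1),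
    eventually_ge_atTop 1] with n h4 h5 u N hu hN
  have h6 : n < 2 ^ u := by rw [hu]; exact Nat.lt_pow_succ_log_self (by norm_num) n
  rw [pow_one, ← hu, ← hN] at h4
  rw [← hN] at h6
  have hN2 : 2 ≤ N := by
    rw [hN]
    calc 2 = 2 ^ 1 := by norm_num
      _ ≤ 2 ^ u := Nat.pow_le_pow_right (by norm_num) (by omega)
  have h7 : 2 * s + 3 + (4 * (n + 1 + 0 + 512 * u) + 2) + C ≤ 5 * N := by nlinarith
  have h8 : 5 * N ≤ N ^ 4 := by
    have : 5 ≤ N ^ 3 := by
      calc 5 ≤ 2 ^ 3 := by norm_num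
        _ ≤ N ^ 3 := Nat.pow_le_pow_left hN2 3
    calc 5 * N ≤ N ^ 3 * N := Nat.mul_le_mul_right _ this
      _ = N ^ 4 := by ring
  have h9 : N ^ 4 ≤ N ^ 512 := Nat.pow_le_pow_right (by omega) (by norm_num)
  have h10 : 1 ≤ N ^ 512 := Nat.one_le_pow _ _ (by omega)
  have e : N ^ 1024 = N ^ 512 * N ^ 512 := by rw [← pow_add]
  rw [e]
  generalize N ^ 512 = Y at h9 h10 ⊢
  have h11 : 2 * s + 1 + (Y * (4 * (n + 1 + 0 + 512 * u) + 2) + C) + 2 ≤
      Y * (2 * s + 3 + (4 * (n + 1 + 0 + 512 * u) + 2) + C) := by nlinarith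
  exact h11.trans (Nat.mul_le_mul_left _ (h7.trans (h8.trans h9)))

theorem one_stepm (hb : S_blk) (hsel : S_sel) (hs : S_siz) (M N : Alg) (p : Polynomial ℕ)
    (σ : List Bool) (H c : ℕ) : ∃ cost b : Polynomial ℕ, ∀ᶠ n : ℕ in atTop, ∀ B : Oracle,
      ∃ B' : Oracle, (∀ y ∉ Region n, B' y = B y) ∧ {y | B y ≠ B' y}.Finite ∧
      {y | B y ≠ B' y}.ncard ≤ cost.eval n ∧
      ∀ B'' : Oracle, (∀ y : List Bool, y.length ≤ b.eval n → B'' y = B' y) →
        ∃ x : Inst, x.IsW 1 ∧ x.param = 2 * (kk M + 0) + 1 ∧ Badm M N p σ H c x B'' := by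
  classical
  obtain ⟨qN, hqN⟩ := N.out_local
  obtain ⟨b, hloc⟩ := loc_m hb M N p σ H c (cst2 (kk M) 0)
    (Polynomial.C 512 * (Polynomial.C 2 * Polynomial.X))
  set k := kk M with hk
  have hk1 : 1 ≤ k := by rw [hk]; unfold Pool.Agent.Y626.WG.kk; omega
  set ρ' : Polynomial ℕ := (Polynomial.C H * (Polynomial.C 1024 * Polynomial.X + 1)) ^ c with hρ'
  set F : Polynomial ℕ := qN.comp (2 * p.comp ρ' + 1 + ρ') with hF
  refine ⟨cst1 (k + 0), b, ?_⟩
  filter_upwards [num_m σ.length (cst k 0), log_small F, eventually_ge_atTop 1] with n hnum hF' h1 B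
  set u := Nat.log 2 n + 1 with hu
  have hu1 : 2 ^ u ≤ 2 * n := pow_log_le h1
  have hu2 : u ≤ 2 * n := (Nat.lt_two_pow_self (n := u)).le.trans hu1
  have hu0 : 1 ≤ u := by omega
  have hnum' := hnum u (2 ^ u) rfl rfl
  obtain ⟨ν, hν⟩ : ∃ ν, ν = 512 * u := ⟨_, rfl⟩
  have e512 : (2 ^ u) ^ 512 = 2 ^ ν := by rw [← pow_mul, hν, mul_comm]
  have e1024 : (2 ^ u) ^ 1024 = 2 ^ (2 * ν) := by
    have e : u * 1024 = 2 * ν := by omega
    rw [← pow_mul, e]
  rw [e512, e1024, ← hν] at hnum'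
  obtain ⟨h4, h5, h6, h7⟩ := hb n k 0 0 ν hk1
  have hsz : (bits (hardn n k 0 0 ν 0)).length ≤ 2 ^ ν * (4 * (n + 1 + 0 + ν) + 2) + cst k 0 := by
    rw [bits_length]
    exact hs n k 0 0 ν 0
  have hcard : (Blk n k 0 0 ν).ncard ≤ (cst1 (k + 0)).eval n := by
    rw [eval_cst1]
    refine h5.trans (le_trans ?_ (cost_aux u (k + 0) (2 * n) hu1))
    rw [hν]
    exact Nat.mul_le_mul_right _ (Nat.pow_le_pow_right (by norm_num) (by omega))
  have hsa : (bits (hardn n k 0 0 ν 0)).length ≤ (cst2 k 0).eval n := by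
    refine hsz.trans ?_
    rw [eval_cst2]
    refine le_trans ?_ (size_aux u n (2 * n) (cst k 0) hu1 hu2)
    rw [hν]
    refine Nat.add_le_add_right (Nat.mul_le_mul_left _ ?_) _
    omega
  have hin : (pairBits σ (bits (hardn n k 0 0 ν 0))).length + 2 ≤ 2 ^ (2 * ν) := by
    rw [length_pairBits]
    omega
  have hlog : Nat.log 2 (bits (hardn n k 0 0 ν 0)).length ≤ 1024 * u := by
    have h8 : (bits (hardn n k 0 0 ν 0)).length ≤ 2 ^ (2 * ν) := by
      rw [length_pairBits] at hin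
      omega
    have h9 := Nat.log_mono_right (b := 2) h8
    rw [Nat.log_pow (by norm_num)] at h9
    omega
  obtain ⟨B', h8, h9⟩ := core_m hb hsel M N p σ H c (n := n) (ν := ν) (by omega) hin (by
    intro r w hr hw A
    obtain ⟨Q, _, h10, h11⟩ := hqN A (pairBits w r)
    refine ⟨Q, fun q hq => (h10 q hq).trans ?_, h11⟩
    refine le_trans ?_ hF'
    have h20 : r.length ≤ ρ'.eval u := by
      refine hr.trans ?_
      rw [hρ', Polynomial.eval_pow, Polynomial.eval_mul, Polynomial.eval_C, Polynomial.eval_add,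
        Polynomial.eval_one, Polynomial.eval_mul, Polynomial.eval_C, Polynomial.eval_X]
      exact Nat.pow_le_pow_left (Nat.mul_le_mul_left _ (Nat.add_le_add_right hlog _)) _
    rw [hF, Polynomial.eval_comp]
    refine eval_mono' _ ?_
    have h22 := hw.trans (eval_mono' p h20)
    rw [length_pairBits]
    simp only [Polynomial.eval_add, Polynomial.eval_mul, Polynomial.eval_ofNat,
      Polynomial.eval_comp, Polynomial.eval_one]
    omega) B
  have h10 : {y | B y ≠ B' y} ⊆ Blk n k 0 0 ν := by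
    intro y hy
    by_contra hc
    exact hy (h8 y hc).symm
  refine ⟨B', fun y hy => h8 y fun hc => hy (h6 hc), h4.subset h10,
    (Set.ncard_le_ncard h10 h4).trans hcard, fun B'' hB'' =>
    ⟨hardn n k 0 0 ν 0, hardn_isW _ _ _ _ _ _, hardn_param _ _ _ _ _ _,
      hloc n ν hsa ?_ B' B'' hB'' h9⟩⟩
  rw [Polynomial.eval_mul, Polynomial.eval_mul, Polynomial.eval_C, Polynomial.eval_C,
    Polynomial.eval_X]
  omega

/-- the enumeration of the requirements -/
theorem exists_enumm : ∃ e : ℕ → Alg × Alg × Polynomial ℕ × List Bool × ℕ × ℕ,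
    Function.Surjective e := by
  have hcn := CC.poly_countable
  have hc2 : Countable Alg := Alg.countable
  obtain ⟨M, _⟩ := IsFP.of_poly (A := fun _ => false) (F := fun y : List Bool => y) NPC.Poly.id
  have : Nonempty (Alg × Alg × Polynomial ℕ × List Bool × ℕ × ℕ) := ⟨(M, M, 0, [], 0, 0)⟩
  exact exists_surjective_nat _

theorem mini (hb : S_blk) (hsel : S_sel) (hs : S_siz) {g : ℕ → ℝ} (hg : Super g)
    (O : Oracle) : ∃ A : Oracle, Close g O A ∧
      InW 1 A (fun I : WInst 1 => I.1.param) (fun I => I.1.Sat A) ∧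
      ¬ InM1n A (fun I : WInst 1 => I.1.param) (fun I => I.1.Sat A) := by
  obtain ⟨e, he⟩ := exists_enumm
  choose cost b hcb using fun k => one_stepm hb hsel hs (e k).1 (e k).2.1 (e k).2.2.1
    (e k).2.2.2.1 (e k).2.2.2.2.1 (e k).2.2.2.2.2
  obtain ⟨A, n, _, _, hA, _, hW⟩ := Pool.Agent.W900.RB.stages hg O
    (fun k _ A => ∃ x : Inst, x.IsW 1 ∧ x.param = 2 * (kk (e k).1 + 0) + 1 ∧
      Badm (e k).1 (e k).2.1 (e k).2.2.1 (e k).2.2.2.1 (e k).2.2.2.2.1 (e k).2.2.2.2.2 x A)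
    cost b 0 (fun k => hcb k)
  refine ⟨A, hA, mc_inW _ _, ?_⟩
  rintro ⟨π, h, c, M, r, L, ⟨V, p, ⟨N, hN⟩, hL⟩, hr⟩
  obtain ⟨k, hk⟩ := he (M, N, p, π (2 * (kk M + 0) + 1), h (2 * (kk M + 0) + 1), c)
  obtain ⟨x, hx1, hx2, hbad⟩ := hW k
  rw [hk] at hx2 hbad
  dsimp only at hx2 hbad
  have h1 := hr ⟨x, hx1⟩
  dsimp only at h1
  rw [hx2] at h1
  refine hbad ⟨r ⟨x, hx1⟩, h1.1, h1.2.1, ?_⟩
  rw [h1.2.2, hL]
  refine exists_congr fun w => and_congr_right fun _ => ?_
  rw [hN, Option.some.injEq]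

end Pool.Agent.Y581.WN
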