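import Pool.Agent.Y581.WN.StmS

/-!
# Project WN, part B: from the second level on, few changes are enough (statements)

Now the windows of the subtrees are small (polylogarithmically many strings), and the subtrees are
recognised by a key: the windows of the oracle `B` contain at most `2 ^ (ν k)` of the `2 ^ s` keys of
length `s > ν k`. The quantifiers over single numbers are restricted by relations to small numbers.
-/

set_option autoImplicit false

namespace Pool.Agent.Y581.WN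

open Filter Pool.Agent.NPC Pool.Agent.H622R2 Pool.Agent.H620R2.Gauge Pool.Agent.TH678.GC
  Pool.Agent.H591R3.PHG Pool.Agent.TH678.RS Pool.Agent.H622R2.Exp Pool.Agent.Y626.WG

/-- the truth value of the matrix, if the list says which variables are small, the first quantifier
being existential (`true`) or universal (`false`) -/
def ev : Bool → List Bool → Bool → Bool
  | _, [], a => a
  | b, true :: l, a => ev (!b) l a
  | b, false :: _, _ => !b

/-- the matrix as a function of the truth values of the atoms -/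
def Phi : List Bool → Bool
  | a₁ :: a₂ :: a₃ :: a₄ :: l => if a₁ then a₃ == a₂ else ev false l a₄
  | _ => false

/-- all the lists of `n` truth values -/
def allB : ℕ → List (List Bool)
  | 0 => [[]]
  | n + 1 => (allB n).map (List.cons false) ++ (allB n).map (List.cons true)

/-- the position number `e` of the key -/
def kp (ν e : ℕ) : ℕ := 2 ^ ν - 1 - e

/-- the hard instance number `j` with the key `κ` of length `s` -/
def hardk (n k c ν j : ℕ) (rest : List ℕ) (s : ℕ) (κ : ℕ → Bool) : Inst where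
  labels := (List.range (2 ^ ν)).map (labn n c ν j)
  rels := (List.range s).map (fun e => (kp ν e, kp ν e)) ::
    ((List.range s).filter κ).map (fun e => (kp ν e, kp ν e)) ::
    rest.map fun r => (List.range (2 ^ r)).map fun y => (y, y)
  blocks := k :: List.replicate rest.length 1
  atoms := (1, [k, k]) :: (2, [k, k]) :: (0, List.range (k + 1)) ::
    (0, List.range (k + rest.length)) ::
    (List.range rest.length).map fun i => (i + 3, [k + i, k + i])
  acc := (allB (rest.length + 4)).filter Phi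

/-- the alternation over small numbers, the first quantifier existential if the bit is `true` -/
def Alt (A : Oracle) (lab : ℕ → List Bool) : Bool → List ℕ → List ℕ → Prop
  | _, [], v => A (v.flatMap lab) = true
  | true, r :: rs, v => ∃ y < 2 ^ r, Alt A lab false rs (v ++ [y])
  | false, r :: rs, v => ∀ y < 2 ^ r, Alt A lab true rs (v ++ [y])

/-- **SATK.** The truth of the instances with keys, for every oracle. -/
def S_satk : Prop :=
  ∀ (A : Oracle) (n k c ν j : ℕ) (r : ℕ) (rs : List ℕ) (s : ℕ) (κ : ℕ → Bool),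
    (∀ a ∈ r :: rs, a ≤ ν) → 2 ^ r + s ≤ 2 ^ ν →
    ((hardk n k c ν j (r :: rs) s κ).Sat A ↔ ∃ w, Tup (2 ^ ν) k w ∧
      (∀ e < s, A ((w ++ [kp ν e]).flatMap (labn n c ν j)) = κ e) ∧
      Alt A (labn n c ν j) false (r :: rs) w)

/-- **WK.** The form, the parameter and the size of the instances with keys. -/
def S_wk : Prop :=
  ∀ (k t : ℕ), ∃ C : ℕ, ∀ (n c ν j : ℕ) (rest : List ℕ) (s : ℕ) (κ : ℕ → Bool),
    rest.length = t → s ≤ 2 ^ ν → (∀ a ∈ rest, a ≤ ν) →
    (hardk n k c ν j rest s κ).IsW (t + 1) ∧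
    (hardk n k c ν j rest s κ).param = 3 * k + 5 * t + 9 ∧
    sz (hardk n k c ν j rest s κ) ≤ C * 2 ^ ν * (n + c + ν + 1)

/-- the tuples of small numbers -/
def Sm : List ℕ → List ℕ → Prop
  | [], [] => True
  | r :: rs, y :: ys => y < 2 ^ r ∧ Sm rs ys
  | _, _ => False

/-- the string is the question for a leaf -/
def IsLeafk (n c ν τ : ℕ) (rest : List ℕ) (S : ℕ → List ℕ) (q : List Bool)
    (p : ℕ × ℕ × List ℕ) : Prop :=
  p.1 < 2 ^ c ∧ p.2.1 < 2 ^ τ ∧ Sm rest p.2.2 ∧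
    q = (S p.2.1 ++ p.2.2).flatMap (labn n c ν p.1)

/-- the string is the question for a position of a key -/
def IsKeyk (n c ν τ s : ℕ) (S : ℕ → List ℕ) (q : List Bool) (p : ℕ × ℕ × ℕ) : Prop :=
  p.1 < 2 ^ c ∧ p.2.1 < 2 ^ τ ∧ p.2.2 < s ∧
    q = (S p.2.1 ++ [kp ν p.2.2]).flatMap (labn n c ν p.1)

open Classical in
/-- the oracle with the keys and with the values `f` at the leaves -/
noncomputable def orck (B : Oracle) (n c ν τ s : ℕ) (rest : List ℕ) (S : ℕ → List ℕ)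
    (κ : ℕ → ℕ → Bool) (f : List Bool → Bool) : Oracle := fun q =>
  if h : ∃ p, IsLeafk n c ν τ rest S q p then
    f (bitsOf c h.choose.1 ++ bitsOf τ h.choose.2.1 ++ path rest h.choose.2.2) ==
      !(fl rest.length false)
  else if h : ∃ p, IsKeyk n c ν τ s S q p then κ h.choose.1 h.choose.2.2
  else B q

/-- **HIDK.** The truth of the hidden instances. -/
def S_hidk : Prop :=
  ∀ (B : Oracle) (n k c ν τ j : ℕ) (S : ℕ → List ℕ), Sel k ν τ S → 1 ≤ k → j < 2 ^ c →
    ∀ (r : ℕ) (rs : List ℕ) (s : ℕ) (κ : ℕ → ℕ → Bool), (∀ a ∈ r :: rs, a ≤ ν) →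
      2 ^ r + s ≤ 2 ^ ν →
      (∀ w, Tup (2 ^ ν) k w → ¬ ∀ e < s, B ((w ++ [kp ν e]).flatMap (labn n c ν j)) = κ j e) →
      ∀ f : List Bool → Bool,
      ((hardk n k c ν j (r :: rs) s (κ j)).Sat (orck B n c ν τ s (r :: rs) S κ f) ↔
        (τ :: r :: rs).foldr up f (bitsOf c j) = false)

/-- **CHK.** The number of the changed strings. -/
def S_chk : Prop :=
  ∀ (B : Oracle) (n k c ν τ s : ℕ) (rest : List ℕ) (S : ℕ → List ℕ) (κ : ℕ → ℕ → Bool)
    (f : List Bool → Bool), Sel k ν τ S → 1 ≤ k →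
    (∀ y ∉ Rgn n, orck B n c ν τ s rest S κ f y = B y) ∧
    {y | B y ≠ orck B n c ν τ s rest S κ f y}.Finite ∧
    {y | B y ≠ orck B n c ν τ s rest S κ f y}.ncard ≤ 2 ^ c * 2 ^ τ * (s + 2 ^ rest.sum)

/-- **MATK.** The matrix of a sentence depends on the leaves as a decision tree. -/
def S_matk : Prop :=
  ∀ {K : ℕ} (c : ℕ) (as : List ℕ) (z₀ : Idx (Fin K) (pw as) → Option Bool) (B : Oracle)
    (n ν τ s : ℕ) (rest : List ℕ) (S : ℕ → List ℕ) (κ : ℕ → ℕ → Bool) (I : Inst) (v : List ℕ),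
    Pool.Agent.H676.DTr I.atoms.length (fun z : Idx (Fin K) (pw as) → Bool =>
      @decide (I.atoms.map
        (I.atom (orck B n c ν τ s rest S κ (fo c as (val z₀ z))) v) ∈ I.acc)
        (Classical.propDecidable _))

/-- **SELK.** The choice of the addresses of the subtrees. -/
def S_selk : Prop :=
  ∀ (n k c ν τ s : ℕ) (rest : List ℕ), 1 ≤ k → s ≤ 2 ^ ν → (∀ a ∈ rest, a ≤ ν) →
    ∀ Q : Finset (List Bool), Q.card + 2 ^ τ ≤ 2 ^ (ν * k) →
    ∃ S : ℕ → List ℕ, Sel k ν τ S ∧ ∀ q ∈ Q, (¬ ∃ p, IsLeafk n c ν τ rest S q p) ∧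
      ¬ ∃ p, IsKeyk n c ν τ s S q p

/-- **KEY.** A key that does not occur. -/
def S_key : Prop :=
  ∀ (B : Oracle) (n k c ν s j : ℕ), ν * k < s → ∃ κ : ℕ → Bool,
    ∀ w, Tup (2 ^ ν) k w → ¬ ∀ e < s, B ((w ++ [kp ν e]).flatMap (labn n c ν j)) = κ e

/-- **NUMK.** The numbers, for `u = log₂ n + 1` and `u' = log₂ u + 1`. -/
def S_numk : Prop :=
  ∀ (t k s C G d₂ : ℕ), ∀ᶠ n : ℕ in atTop, ∀ u u' : ℕ, u = Nat.log 2 n + 1 →
    u' = Nat.log 2 u + 1 →
    1 ≤ u' ∧ u' ≤ u ∧ G ≤ 2 ^ (2 * u') ∧ 2 ^ (512 * u') + (512 * u * k + 1) ≤ 2 ^ (512 * u) ∧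
    2 * s + 1 + C * 2 ^ (512 * u) * (n + (u' + 11) + 512 * u + 1) + 2 ≤ 2 ^ (1024 * u) ∧
    (t : ℝ) * (2 ^ (2 ^ (u' + 11) + t * (2 * (1024 * u * d₂ * G) + 1) + 2) *
      (1 / 2) ^ (2 ^ (2 * u') + 1)) + 3 * (1 / 2) ^ (2 ^ u') < 1

/-- **COST.** The number of the changes is polylogarithmic. -/
def S_cost : Prop :=
  ∀ (t k : ℕ), ∃ C : ℕ, ∀ᶠ n : ℕ in atTop, ∀ u u' : ℕ, u = Nat.log 2 n + 1 →
    u' = Nat.log 2 u + 1 → ∀ (τ : ℕ) (rest : List ℕ), rest.length = t → τ ≤ 512 * u' →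
    (∀ a ∈ rest, a ≤ 512 * u') →
    2 ^ (u' + 11) * 2 ^ τ * ((512 * u * k + 1) + 2 ^ rest.sum) ≤ Nat.log 2 n ^ C

/-- **ONEK.** One error of a reduction, by polylogarithmically many changes in `Rgn n`. -/
def S_onek : Prop :=
  ∀ (t : ℕ) (M : Alg) (σ : List Bool) (G : ℕ), 1 ≤ t → ∃ (C : ℕ) (a : Polynomial ℕ),
    ∀ᶠ n : ℕ in atTop, ∀ B : Oracle, ∃ B' : Oracle, (∀ y ∉ Rgn n, B' y = B y) ∧
      {y | B y ≠ B' y}.Finite ∧ {y | B y ≠ B' y}.ncard ≤ Nat.log 2 n ^ C ∧
      ∃ x : Inst, x.IsW (t + 1) ∧ x.param = 3 * kk M + 5 * t + 9 ∧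
        (bits x).length ≤ a.eval n ∧ Badn t M σ G x B'

/-- The gauge is not bounded by a power of the logarithm. -/
def SuperLog (g : ℕ → ℝ) : Prop :=
  ∀ c : ℕ, ∃ᶠ n : ℕ in atTop, ∀ m ≥ n, (Nat.log 2 n : ℝ) ^ c < g m

end Pool.Agent.Y581.WN
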