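import Pool.Agent.Y626.WC.Dt
import Pool.Agent.Y626.WG.Defs
import Pool.Agent.W900.CH.Trans

/-!
# Project WN, part C: `W[1] = FPT` near one oracle (statements)

The oracle is `OO K R`: at the string `w` it has the value `K q` (`q` the first component of `w`)
plus a noise `nz R w`, the conjunction of eight fair coins of the random oracle `R`. By the noise,
every disjunction of many disjoint events on few bits each is true, even after some changes of the
oracle; on the other hand `K` can be read by majority decoding.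
-/

set_option autoImplicit false

namespace Pool.Agent.Y581.WN

open MeasureTheory Pool.Agent.NPC Pool.Agent.H620R2.Gauge Pool.Agent.TH678.GC
  Pool.Agent.Y626.WG Pool.Agent.Y626.WC
open Pool.Agent.H628R3.RO (randomOracle prob)

/-- the noise at the string `w`: the conjunction of eight fair coins -/
def nz (R : Oracle) (w : List Bool) : Bool :=
  (List.range 8).all fun i => R (bitsOf 3 i ++ w)

/-- the oracle with the value `K q` at all strings with first component `q`, with noise -/
def OO (K R : Oracle) : Oracle := fun w => xor (K (unpair w).1) (nz R w)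

/-- the factor -/
def qq (W : ℕ) : ℕ := 1 + W * 2 ^ (8 * W + 2)

/-- the bound for the depth of the trees -/
def bdn (w n : ℕ) : ℕ := w * qq w ^ w * (4 * n + 2)

/-- **FEW.** The probability that at most `P` of many disjoint possible events happen. -/
def S_few : Prop :=
  ∀ (ι : Type) (f : ι → Oracle → Prop) (D : ι → Finset (List Bool)) (W P L : ℕ) (s : Finset ι),
    (∀ i, ∀ A A' : Oracle, (∀ z ∈ D i, A z = A' z) → (f i A ↔ f i A')) →
    (∀ i ∈ s, (∃ A, f i A) ∧ (D i).card ≤ W) → (s : Set ι).PairwiseDisjoint D →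
    2 ^ W * (4 * (2 * P + L)) ≤ s.card →
    prob {R | ∃ c : Finset ι, c.card ≤ P ∧ ∀ i ∈ s, f i R → i ∈ c} ≤ (1 / 2 : ℝ) ^ L

/-- **TREE.** The disjunction of events on at most `w` bits is, for most `R`, the value of one
decision tree for all oracles which differ from `OO K R` in at most `P` strings. -/
def S_tree : Prop :=
  ∀ (W P N w : ℕ), w ≤ W → ∀ (L : ℕ) (ι : Type) (f : ι → Oracle → Prop)
    (D : ι → Finset (List Bool)),
    (∀ i, ∀ A A' : Oracle, (∀ z ∈ D i, A z = A' z) → (f i A ↔ f i A')) →
    (∀ i, ∀ z ∈ D i, z.length ≤ N) → (∀ i, (∃ A, f i A) → (D i).card ≤ w) →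
    ∃ t : DT, t.depth ≤ w * qq W ^ w * (2 * P + L) ∧ t.In (⋃ i, (D i : Set (List Bool))) ∧
      ∀ K : Oracle, ∃ Bad : Set Oracle, prob Bad ≤ (1 / 2 : ℝ) ^ L ∧
        ∀ R ∉ Bad, ∀ A : Oracle, Pool.Agent.W900.CH.dist (OO K R) A N ≤ P →
          (t.eval A = true ↔ ∃ i, f i A)

/-- **INST.** The trees for the existential sentences. -/
def S_inst : Prop :=
  ∀ y : List Bool, ∃ t : DT, (∀ h, (t.nx h).length ≤ y.length) ∧
    (∀ I : Inst, (unpair y).2 = bits I → I.IsW 1 → (bits I).length ^ 2 ≤ y.length →
      t.depth ≤ bdn I.param y.length) ∧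
    ∀ K : Oracle, ∃ Bad : Set Oracle, randomOracle.real Bad ≤ (1 / 2 : ℝ) ^ (2 * y.length + 2) ∧
      ∀ I : Inst, (unpair y).2 = bits I → I.IsW 1 → (bits I).length ^ 2 ≤ y.length →
        ∀ R ∉ Bad, ∀ A : Oracle,
          Pool.Agent.W900.CH.dist (OO K R) A ((bits I).length ^ 2) ≤ y.length →
          (t.eval A = true ↔ I.Sat A)

/-- the number of the noisy copies, among the first `4 (n + 1)` copies of `q` -/
def nno (R : Oracle) (q : List Bool) (n : ℕ) : ℕ :=
  ((Finset.range (4 * (n + 1))).filter fun j => nz R (pairBits q (Nat.bits j)) = true).card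

/-- **NOISE.** A quarter of the copies is noisy with small probability only. -/
def S_noise : Prop :=
  ∀ (q : List Bool) (n : ℕ), prob {R | n + 1 ≤ nno R q n} ≤ (1 / 2 : ℝ) ^ (2 * n + 2)

/-- **MAJ.** Majority decoding, relative to an oracle which differs from `OO K R` in few strings. -/
def S_maj : Prop :=
  ∀ (K R A : Oracle) (p : Polynomial ℕ),
    {x : List Bool | x.length + 1 ≤ nno R (unpair x).1 x.length}.Finite →
    (∀ n, Pool.Agent.W900.CH.dist (OO K R) A n ≤ p.eval n) → IsFP A (fun q => [K q])

end Pool.Agent.Y581.WN
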