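import Pool.Agent.Y626.WG.One

/-!
# Project WN, part S: the hierarchies are strict near every oracle (statements)

This is the construction of `Pool.Agent.Y626.WG` with labels which start with `n` times `true`, one
`false`, so that all the questions to the block are in `Rgn n`, and with an arbitrary oracle `B`
outside of the block.
-/

set_option autoImplicit false

namespace Pool.Agent.Y581.WN

open Filter Pool.Agent.NPC Pool.Agent.H622R2 Pool.Agent.H620R2.Gauge Pool.Agent.TH678.GC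
  Pool.Agent.H591R3.PHG Pool.Agent.TH678.RS Pool.Agent.H622R2.Exp Pool.Agent.Y626.WG

/-- the strings that may be changed in the stage `n` (this is `Pool.Agent.W900.RB.Region n`) -/
def Rgn (n : ℕ) : Set (List Bool) :=
  {y | ∃ z : List Bool, y = List.replicate n true ++ false :: z}

/-- the label of the element `i` in the instance number `j` -/
def labn (n c ν j i : ℕ) : List Bool :=
  List.replicate n true ++ false :: (bitsOf c j ++ bitsOf ν i)

/-- the hard instance number `j` -/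
def hardn (n k t c ν j : ℕ) : Inst where
  labels := (List.range (2 ^ ν)).map (labn n c ν j)
  rels := []
  blocks := k :: List.replicate t 1
  atoms := [(0, List.range (k + t))]
  acc := [[true]]

/-- the string is the question for a leaf -/
def IsLeafn (n t c ν τ : ℕ) (S : ℕ → List ℕ) (q : List Bool) (p : ℕ × ℕ × List ℕ) : Prop :=
  p.1 < 2 ^ c ∧ p.2.1 < 2 ^ τ ∧ Tup (2 ^ ν) t p.2.2 ∧
    q = (S p.2.1 ++ p.2.2).flatMap (labn n c ν p.1)

/-- the block: all the questions of the instances -/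
def Blk (n k t c ν : ℕ) : Set (List Bool) :=
  {q | ∃ j < 2 ^ c, ∃ v, Tup (2 ^ ν) (k + t) v ∧ q = v.flatMap (labn n c ν j)}

open Classical in
/-- the oracle `B` without the block -/
noncomputable def basen (B : Oracle) (n k t c ν : ℕ) : Oracle := fun q =>
  if q ∈ Blk n k t c ν then false else B q

open Classical in
/-- the oracle with the values `f` at the leaves -/
noncomputable def orcn (B : Oracle) (n k t c ν τ : ℕ) (S : ℕ → List ℕ) (rest : List ℕ)
    (f : List Bool → Bool) : Oracle := fun q =>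
  if h : ∃ p, IsLeafn n t c ν τ S q p then
    f (bitsOf c h.choose.1 ++ bitsOf τ h.choose.2.1 ++ path rest h.choose.2.2) == !(fl t false)
  else basen B n k t c ν q

/-- **BLK.** The block. -/
def S_blk : Prop :=
  ∀ (n k t c ν : ℕ), 1 ≤ k → (Blk n k t c ν).Finite ∧
    (Blk n k t c ν).ncard ≤ 2 ^ c * 2 ^ (ν * (k + t)) ∧ Blk n k t c ν ⊆ Rgn n ∧
    ∀ q ∈ Blk n k t c ν, q.length = (k + t) * (n + 1 + c + ν)

/-- **SAT.** The truth of the hard instances. -/
def S_sat : Prop :=
  ∀ (B : Oracle) (n k t c ν τ j : ℕ) (S : ℕ → List ℕ), Sel k ν τ S → 1 ≤ k → j < 2 ^ c →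
    ∀ rest : List ℕ, rest.length = t → (∀ a ∈ rest, a ≤ ν) → ∀ f : List Bool → Bool,
      ((hardn n k t c ν j).Sat (orcn B n k t c ν τ S rest f) ↔
        (τ :: rest).foldr up f (bitsOf c j) = false)

/-- **MAT.** The matrix of a sentence depends on the leaves as a decision tree. -/
def S_mat : Prop :=
  ∀ {K : ℕ} (c : ℕ) (as : List ℕ) (s : Idx (Fin K) (pw as) → Option Bool) (B : Oracle)
    (n k t ν τ : ℕ) (S : ℕ → List ℕ) (rest : List ℕ) (I : Inst) (v : List ℕ),
    Pool.Agent.H676.DTr I.atoms.length (fun z : Idx (Fin K) (pw as) → Bool =>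
      @decide (I.atoms.map
        (I.atom (orcn B n k t c ν τ S rest (fo c as (val s z))) v) ∈ I.acc)
        (Classical.propDecidable _))

/-- **SEL.** The choice of the addresses of the subtrees. -/
def S_sel : Prop :=
  ∀ (n k t c ν τ : ℕ), 1 ≤ k → ∀ Q : Finset (List Bool), Q.card + 2 ^ τ ≤ 2 ^ (ν * k) →
    ∃ S : ℕ → List ℕ, Sel k ν τ S ∧ ∀ q ∈ Q, ¬ ∃ p, IsLeafn n t c ν τ S q p

/-- **SIZ.** The size of the hard instances. -/
def S_siz : Prop :=
  ∀ (n k t c ν j : ℕ), sz (hardn n k t c ν j) ≤ 2 ^ ν * (4 * (n + 1 + c + ν) + 2) + cst k t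

/-- **NUM.** The numbers, for `u = log₂ n + 1`. -/
def S_num : Prop :=
  ∀ (t k s G d₂ : ℕ), ∀ᶠ n : ℕ in atTop, ∀ u : ℕ, u = Nat.log 2 n + 1 →
    1 ≤ u ∧ n < 2 ^ u ∧ G ≤ 2 ^ (2 * u) ∧
    2 * s + 1 + (2 ^ (512 * u) * (4 * (n + 1 + (u + 11) + 512 * u) + 2) + cst k t) + 2 ≤
      2 ^ (1024 * u) ∧
    (t : ℝ) * (2 ^ (2 ^ (u + 11) + t * (2 * (1024 * u * d₂ * G) + 1) + 2) *
      (1 / 2) ^ (2 ^ (2 * u) + 1)) + 3 * (1 / 2) ^ (2 ^ u) < 1

/-- The algorithm with the advice `σ` and the bound `G` for the parameter is not a correct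
reduction to `A[t]` for the instance `x`. -/
def Badn (t : ℕ) (M : Alg) (σ : List Bool) (G : ℕ) (x : Inst) (A : Oracle) : Prop :=
  ¬ ∃ I : Inst, M.out A (pairBits σ (bits x)) = some (bits I) ∧ I.IsA t ∧
    I.param ≤ G ∧ (x.Sat A ↔ I.Sat A)

/-- **ONEA.** One error of a reduction, by changes in the block. -/
def S_onea : Prop :=
  ∀ (t : ℕ) (M : Alg) (σ : List Bool) (G : ℕ), ∀ᶠ n : ℕ in atTop, ∀ u : ℕ,
    u = Nat.log 2 n + 1 → ∀ B : Oracle, ∃ B' : Oracle,
      (∀ y ∉ Blk n (kk M) t (u + 11) (512 * u), B' y = B y) ∧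
      ∃ j, Badn t M σ G (hardn n (kk M) t (u + 11) (512 * u) j) B'

/-- **LOC.** The error depends on strings of polynomial length only. -/
def S_loc : Prop :=
  ∀ (t : ℕ) (M : Alg) (σ : List Bool) (G : ℕ) (a : Polynomial ℕ), ∃ b : Polynomial ℕ,
    ∀ (n : ℕ) (x : Inst) (B' B'' : Oracle), (bits x).length ≤ a.eval n →
      (∀ y : List Bool, y.length ≤ b.eval n → B'' y = B' y) →
      Badn t M σ G x B' → Badn t M σ G x B''

end Pool.Agent.Y581.WN
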